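import Pool.Agent.Lib.MP_33b3f9_ag.M8.E3.Cst

/-! Orbits are analytically dense in the fixed locus of a set of matrices. -/

set_option autoImplicit false

noncomputable section

namespace M8.E3

open Matrix Filter Topology M4 Complex

variable {ι : Type} [Fintype ι] [DecidableEq ι] {τ z : Matrix ι ι ℂ} {A H : Set (MR ι)}
  {O : Set (Matrix ι ι ℂ)}

/-- The elements of the complex symplectic Lie algebra that commute with `A`. -/
def gC (A : Set (MR ι)) : Submodule ℂ (MC ι) where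
  carrier := {X | X ∈ spC ι ∧ ∀ x ∈ A, X * cx x = cx x * X}
  zero_mem' := ⟨zero_mem _, fun x _ => by rw [Matrix.zero_mul, Matrix.mul_zero]⟩
  add_mem' := fun {X Y} hX hY => ⟨add_mem hX.1 hY.1, fun x hx => by
    rw [Matrix.add_mul, Matrix.mul_add, hX.2 x hx, hY.2 x hx]⟩
  smul_mem' := fun c X hX => ⟨Submodule.smul_mem _ c hX.1, fun x hx => by
    rw [Matrix.smul_mul, Matrix.mul_smul, hX.2 x hx]⟩

omit [DecidableEq ι] [Fintype ι] in
theorem cx_add (g h : MR ι) : cx (g + h) = cx g + cx h := by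
  ext i j
  exact ofReal_add _ _

omit [DecidableEq ι] [Fintype ι] in
theorem cx_neg (g : MR ι) : cx (-g) = -cx g := by
  ext i j
  exact ofReal_neg _

/-- The real operator whose graph joins two complex structures. -/
theorem exists_T (hz : InH z) (hτ : InH τ) (h0 : ∀ x ∈ A, cst z * x = x * cst z)
    (h1 : ∀ x ∈ A, cst τ * x = x * cst τ) : ∃ T : MR ι, Tᵀ * J ι ℝ + J ι ℝ * T = 0 ∧
      T * cst z = -(cst z * T) ∧ cst τ * (1 + T) = (1 + T) * cst z ∧ ∀ x ∈ A, T * x = x * T := by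
  have hd := (cst_add_det hz hτ).isUnit
  have a0 := cst_sq hz
  have a1 := cst_sq hτ
  have b0 := eq_neg_of_add_eq_zero_left (cst_sp hz)
  have b1 := eq_neg_of_add_eq_zero_left (cst_sp hτ)
  generalize cst z = P at *
  generalize cst τ = Q at *
  have s1 := mul_nonsing_inv _ hd
  have s2 := nonsing_inv_mul _ hd
  generalize (P + Q)⁻¹ = S at s1 s2
  have hu : ∀ X Y : MR ι, (P + Q) * X = (P + Q) * Y → X = Y := fun X Y h => by
    rw [← Matrix.one_mul X, ← s2, Matrix.mul_assoc, h, ← Matrix.mul_assoc, s2, Matrix.one_mul]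
  have t1 : (P + Q) * (S * (P - Q)) = P - Q := by rw [← Matrix.mul_assoc, s1, Matrix.one_mul]
  have c1 : (P + Q) * P = Q * (P + Q) := by rw [add_mul, mul_add, a0, a1, add_comm]
  have c2 : (P + Q) * Q = P * (P + Q) := by rw [add_mul, mul_add, a0, a1, add_comm]
  have c3 : (P + Q) * (P - Q) = -((P - Q) * (P + Q)) := by
    simp only [add_mul, mul_add, mul_sub, sub_mul, a0, a1]
    abel
  have t2 : S * (P - Q) * (P + Q) = -(P - Q) := hu _ _ (by
    rw [← Matrix.mul_assoc, t1, Matrix.mul_neg, c3, neg_neg])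
  generalize S * (P - Q) = T at t1 t2
  have t3 : T * P = -(P * T) := hu _ _ (by
    rw [← Matrix.mul_assoc, t1, Matrix.mul_neg, ← Matrix.mul_assoc, c1, Matrix.mul_assoc, t1]
    simp only [mul_sub, sub_mul, a0, a1]
    abel)
  refine ⟨T, ?_, t3, hu _ _ ?_, fun x hx => hu _ _ ?_⟩
  · have e1 : (P + Q)ᵀ * J ι ℝ = -(J ι ℝ * (P + Q)) := by
      rw [transpose_add, add_mul, b0, b1, mul_add, neg_add]
    have e2 : (P - Q)ᵀ * J ι ℝ = -(J ι ℝ * (P - Q)) := by
      rw [transpose_sub, sub_mul, b0, b1, mul_sub, neg_sub_neg, neg_sub]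
    have e3 : (Tᵀ * J ι ℝ + J ι ℝ * T) * (P + Q) = 0 := by
      rw [add_mul, Matrix.mul_assoc, Matrix.mul_assoc, t2, ← neg_neg (J ι ℝ * (P + Q)), ← e1,
        Matrix.mul_neg, ← Matrix.mul_assoc, ← transpose_mul, t1, e2, neg_neg, Matrix.mul_neg,
        add_neg_cancel]
    rw [← Matrix.mul_one (_ + _), ← s1, ← Matrix.mul_assoc, e3, Matrix.zero_mul]
  · rw [← Matrix.mul_assoc, c2, Matrix.mul_assoc, ← Matrix.mul_assoc (P + Q) (1 + T), mul_add (P + Q),
      t1, mul_one, add_add_sub_cancel, mul_add, add_mul]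
  · have e : (P + Q) * x = x * (P + Q) := by rw [add_mul, mul_add, h0 x hx, h1 x hx]
    rw [← Matrix.mul_assoc, t1, ← Matrix.mul_assoc, e, Matrix.mul_assoc, t1, sub_mul, mul_sub,
      h0 x hx, h1 x hx]

/-- The nilpotent element that moves `z` to `τ`. -/
theorem exists_N (hz : InH z) (hτ : InH τ) (h0 : ∀ x ∈ A, cst z * x = x * cst z)
    (h1 : ∀ x ∈ A, cst τ * x = x * cst τ) : ∃ N ∈ gC A, N * N = 0 ∧
      rw' τ * (1 + N) * cl' z = 0 ∧
      ∀ s : ℝ, 0 ≤ s → s ≤ 1 → ∀ u, u ≠ 0 → 0 < hq (((1 + (s : ℂ) • N) * cl' z) *ᵥ u) := by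
  obtain ⟨T, t1, t2, t3, t4⟩ := exists_T hz hτ h0 h1
  have p1 := cst_cl hz
  have p2 : cx (cst z) * cx (cst z) = -1 := by rw [← cx_mul, cst_sq hz, cx_neg, cx_one]
  have p3 : cx T * cx (cst z) = -(cx (cst z) * cx T) := by rw [← cx_mul, t2, cx_neg, cx_mul]
  have p4 : cx (cst τ) * (1 + cx T) = (1 + cx T) * cx (cst z) := by
    rw [← cx_one, ← cx_add, ← cx_mul, t3, cx_mul]
  have p5 : cx (T * cst z) ∈ spC ι := cx_mem_spC (by
    rw [transpose_mul, Matrix.mul_assoc, eq_neg_of_add_eq_zero_left t1, Matrix.mul_neg,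
      ← Matrix.mul_assoc, eq_neg_of_add_eq_zero_left (cst_sp hz), t2, Matrix.neg_mul, neg_neg,
      Matrix.mul_neg, Matrix.mul_assoc, add_neg_cancel])
  have n1 : ((2 : ℂ)⁻¹ • (cx T + I • cx (T * cst z))) * cl' z = cx T * cl' z := by
    rw [Matrix.smul_mul, Matrix.add_mul, Matrix.smul_mul, cx_mul, Matrix.mul_assoc, p1,
      Matrix.mul_smul, smul_smul, mul_neg, I_mul_I, neg_neg, one_smul, ← two_smul ℂ, smul_smul]
    simp
  have n2 : rw' τ * ((1 + cx T) * cl' z) = 0 := by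
    have e : I • (rw' τ * ((1 + cx T) * cl' z)) = -I • (rw' τ * ((1 + cx T) * cl' z)) := by
      rw [← Matrix.smul_mul, ← rw_cst hτ, Matrix.mul_assoc, ← Matrix.mul_assoc (cx _), p4,
        Matrix.mul_assoc, p1, Matrix.mul_smul, Matrix.mul_smul]
    rw [← sub_eq_zero, ← sub_smul, smul_eq_zero] at e
    exact e.resolve_left (by simp [← two_mul])
  refine ⟨(2 : ℂ)⁻¹ • (cx T + I • cx (T * cst z)), Submodule.smul_mem _ _ (add_mem
    ⟨cx_mem_spC t1, fun x hx => by rw [← cx_mul, t4 x hx, cx_mul]⟩ (Submodule.smul_mem _ _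
      ⟨p5, fun x hx => by
        rw [← cx_mul, ← cx_mul, Matrix.mul_assoc, h0 x hx, ← Matrix.mul_assoc, t4 x hx,
          Matrix.mul_assoc]⟩)), ?_, ?_, fun s s0 s1 u hu => ?_⟩
  · have e : (cx T + I • cx (T * cst z)) * (cx T + I • cx (T * cst z)) = 0 := by
      rw [cx_mul]
      generalize cx T = a at p3 ⊢
      generalize cx (cst z) = b at p2 p3 ⊢
      have e1 : a * b * a = -(a * (a * b)) := by rw [p3, Matrix.mul_neg, neg_neg, ← p3, Matrix.mul_assoc, ← neg_neg (b * a), ← p3, p3, neg_neg]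
      have e2 : a * b * (a * b) = a * a := by
        rw [← Matrix.mul_assoc, e1, Matrix.neg_mul, Matrix.mul_assoc, Matrix.mul_assoc, p2]
        simp
      simp only [add_mul, mul_add, Matrix.smul_mul, Matrix.mul_smul, e1, e2, smul_add, smul_smul,
        I_mul_I]
      module
    rw [Matrix.smul_mul, Matrix.mul_smul, e, smul_zero, smul_zero]
  · rw [Matrix.mul_assoc, Matrix.add_mul, n1, ← Matrix.add_mul, n2]
  · have x1 : cx (cst z) *ᵥ (cl' z *ᵥ u) = -I • (cl' z *ᵥ u) := by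
      rw [mulVec_mulVec, p1, smul_mulVec]
    have x2 : cx (cst z) *ᵥ (cx T *ᵥ (cl' z *ᵥ u)) = I • (cx T *ᵥ (cl' z *ᵥ u)) := by
      rw [mulVec_mulVec, ← neg_neg (cx (cst z) * cx T), ← p3, neg_mulVec, ← mulVec_mulVec, x1,
        mulVec_smul, neg_smul, neg_neg]
    have x3 : 0 < hq (cl' z *ᵥ u) := by
      rw [hq_cl]
      exact mul_pos two_pos ((act_inH_iff.1 hz).2 u hu)
    have x4 : (1 + cx T) * cl' z = cl' τ * dc (1 + cx T) z := by
      rw [mul_cl, rw', fromCols_mul_fromRows, Matrix.one_mul, add_neg_eq_zero] at n2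
      rw [mul_cl, cl', fromRows_mul, Matrix.one_mul, Matrix.neg_mul, n2]
    have x5 : cl' z *ᵥ u + ((1 : ℝ) : ℂ) • cx T *ᵥ (cl' z *ᵥ u) = cl' τ *ᵥ (dc (1 + cx T) z *ᵥ u) := by
      rw [mulVec_mulVec u (cl' τ), ← x4, ← mulVec_mulVec, add_mulVec, one_mulVec, ofReal_one,
        one_smul]
    have x6 : 0 < hq (cl' z *ᵥ u) + 1 ^ 2 * hq (cx T *ᵥ (cl' z *ᵥ u)) := by
      rw [← hq_add (cst_sp hz) x1 x2, x5, hq_cl]
      refine mul_pos two_pos ((act_inH_iff.1 hτ).2 _ fun h => x3.ne' ?_)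
      rw [h, mulVec_zero, ofReal_one, one_smul] at x5
      have x7 := congrArg (cx (cst z) *ᵥ ·) x5
      simp only [mulVec_add, x1, x2, mulVec_zero] at x7
      rw [eq_neg_of_add_eq_zero_right x5, smul_neg, neg_smul, ← neg_add, neg_eq_zero, ← add_smul,
        smul_eq_zero] at x7
      rw [x7.resolve_left (by simp [← two_mul]), hq]
      simp
    rw [Matrix.add_mul, Matrix.smul_mul, n1, Matrix.one_mul, add_mulVec, smul_mulVec,
      ← mulVec_mulVec, hq_add (cst_sp hz) x1 x2]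
    have x8 : s ^ 2 ≤ 1 := pow_le_one₀ s0 s1
    rcases x8.eq_or_lt with e | e
    · rwa [e, ← one_pow 2]
    · nlinarith [mul_pos (sub_pos.2 e) x3, mul_nonneg (sq_nonneg s) x6.le]

theorem hasDerivAt_ac {N : MC ι} (hN : N * N = 0) {s : ℂ} (hd : (dc (1 + s • N) z).det ≠ 0) :
    HasDerivAt (F := ι → ι → ℂ) (fun t => ac (1 + t • N) z) (vf N (ac (1 + s • N) z)) s := by
  have hc : Continuous fun t : ℂ => dc (1 + t • N) z :=
    continuous_dc.comp (Continuous.prodMk (by fun_prop) continuous_const)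
  obtain ⟨h1, h2⟩ := tendsto_inv (l := 𝓝[≠] s)
    (tendsto_nhdsWithin_of_tendsto_nhds (hc.tendsto s)) hd
  have h3 := ((continuous_const (y := vf N (ac (1 + s • N) z) * dc (1 + s • N) z)).matrix_mul
    continuous_id).continuousAt.tendsto.comp h1
  rw [id, mul_nonsing_inv_cancel_right _ _ hd.isUnit] at h3
  refine hasDerivAt_iff_tendsto_slope.2 (h3.congr' ?_)
  filter_upwards [h2, self_mem_nhdsWithin] with t ht hts
  have e1 : N * cl' z = N * cl' (ac (1 + s • N) z) * dc (1 + s • N) z := by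
    rw [Matrix.mul_assoc, ← mul_cl' hd, ← Matrix.mul_assoc, Matrix.mul_add, Matrix.mul_smul, hN,
      smul_zero, add_zero, Matrix.mul_one]
  have e2 : (1 + t • N) * cl' z = (1 + s • N) * cl' z + (t - s) • (N * cl' z) := by
    rw [← Matrix.smul_mul, ← Matrix.add_mul, sub_smul, add_assoc, add_sub_cancel]
  have e : ac (1 + t • N) z - ac (1 + s • N) z =
      (t - s) • (vf N (ac (1 + s • N) z) * dc (1 + s • N) z * (dc (1 + t • N) z)⁻¹) := by
    rw [ac_eq ht (ac (1 + s • N) z), sub_sub_cancel_left, Matrix.mul_assoc (rw' _), e2,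
      mul_cl' hd, Matrix.mul_add, ← Matrix.mul_assoc, rw_cl, sub_self, Matrix.zero_mul, zero_add,
      e1, vf]
    simp only [Matrix.mul_smul, Matrix.smul_mul, Matrix.neg_mul, smul_neg, Matrix.mul_assoc]
  exact ((congrArg ((t - s)⁻¹ • ·) e).trans (inv_smul_smul₀ (sub_ne_zero.2 hts) _)).symm

theorem zero_of_gC (h : gC A ≤ tg O) (hO : z ∈ O) (hz : InH z) (hτ : InH τ)
    (h0 : ∀ x ∈ A, cst z * x = x * cst z) (h1 : ∀ x ∈ A, cst τ * x = x * cst τ)
    {F : (ι → ι → ℂ) → ℂ} (hF : Van O F) : F τ = 0 := by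
  obtain ⟨N, n1, n2, n3, n4⟩ := exists_N hz hτ h0 h1
  have hs : ∀ s : ℂ, (1 + s • N)ᵀ * J ι ℂ * (1 + s • N) = J ι ℂ := fun s => by
    have e : Nᵀ * J ι ℂ = -(J ι ℂ * N) := eq_neg_of_add_eq_zero_left n1.1
    rw [transpose_add, transpose_one, transpose_smul, Matrix.add_mul, Matrix.one_mul,
      Matrix.smul_mul, e, Matrix.mul_add, Matrix.mul_one, Matrix.mul_smul, Matrix.add_mul,
      Matrix.smul_mul, Matrix.neg_mul, Matrix.mul_assoc, n2]
    simp
  have hc : Continuous fun t : ℂ => (dc (1 + t • N) z).det :=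
    (continuous_dc.comp (Continuous.prodMk (by fun_prop) continuous_const)).matrix_det
  obtain ⟨V, v1, v2, v3, v4, v5⟩ := exists_dom
    (U := {s : ℂ | (dc (1 + s • N) z).det ≠ 0} ∩ (fun s i j => ac (1 + s • N) z i j) ⁻¹' PosIm ι)
    (ContinuousOn.isOpen_inter_preimage
      (fun s hs => (hasDerivAt_ac n2 hs).continuousAt.continuousWithinAt)
      (isOpen_ne_fun hc continuous_const) isOpen_posIm)
    fun t t0 t1 => ⟨dc_det (n4 t t0 t1), (ac_inH (hs t) hz.1 (n4 t t0 t1)).posIm⟩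
  have h2 := curve_zero (h n1) (c := fun s => ac (1 + s • N) z) v2 v3 v4
    (fun s hs' => inH_of_posIm (ac_symm (hs s) hz.1 (v1 hs').1) (v1 hs').2)
    (fun s hs' => hasDerivAt_ac n2 (v1 hs').1) (Set.mem_of_eq_of_mem (by
      change ac (1 + (0 : ℂ) • N) z = z
      rw [zero_smul, add_zero, ← cx_one, ac_cx, act_one]) hO) hF 1 v5
  have e : ac (1 + (1 : ℂ) • N) z = τ := by
    rw [ac_eq (v1 v5).1 τ, one_smul, n3, Matrix.zero_mul, sub_zero]
  exact e ▸ h2

/-- A group that commutes with `A`, accumulates at the identity and acts irreducibly on the Lie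
algebra has analytically dense orbits in the fixed locus of `A`. -/
theorem lim_fix (h : Orb H O) (hA : ∀ g ∈ H, ∀ x ∈ A, g * x = x * g) (hn : ND H) {G : Set (MR ι)}
    (hG : G ⊆ H) (hi : Irr G (gC A)) (hO : z ∈ O) (hτ : InH τ)
    (h0 : ∀ x ∈ A, cst z * x = x * cst z) (h1 : ∀ x ∈ A, cst τ * x = x * cst τ)
    {F : (ι → ι → ℂ) → ℂ} (hF : DifferentiableOn ℂ F (PosIm ι)) (hv : ∀ w ∈ O, F w = 0) :
    F τ = 0 := by
  obtain ⟨X, hX0, hX⟩ := hn.dir
  refine zero_of_gC (h.le_tg hG hi (fun g hg g' e Y hY =>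
    ⟨spC_conj (h.sim g (hG hg)) e hY.1, fun x hx => ?_⟩) hX hX0
    ⟨cx_mem_spC (hX.sp h.sim), fun x hx => by
      rw [← cx_mul, hX.comm fun g hg => hA g hg x hx, cx_mul]⟩) hO (h.inH z hO) hτ h0 h1
    ⟨fun σ hσ => Pool.Agent.Lib.MP_a47f92_an.Osg.analyticOnNhd_of_differentiableOn isOpen_posIm
      hF _ hσ.posIm, hv⟩
  have e1 := hA g (hG hg) x hx
  have e2 : g' * x = x * g' := by
    rw [← Matrix.mul_one (g' * x), ← e, ← Matrix.mul_assoc, Matrix.mul_assoc g', ← e1,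
      ← Matrix.mul_assoc, mul_eq_one_comm.1 e, Matrix.one_mul]
  rw [Matrix.mul_assoc, ← cx_mul, e2, cx_mul, ← Matrix.mul_assoc, Matrix.mul_assoc (cx g),
    hY.2 x hx, ← Matrix.mul_assoc, ← cx_mul, e1, cx_mul]
  simp only [Matrix.mul_assoc]

end M8.E3
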