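import Pool.Agent.Lib.MP_33b3f9_ag.M8.E3.Mah
import Pool.Agent.Lib.MP_33b3f9_ag.M8.E3.Fix

/-! A group with unbounded denominators that contains a congruence subgroup is not discrete. -/

set_option autoImplicit false

namespace M8.E3

open Matrix Filter Topology M4 M4.CL

variable {ι : Type} [Fintype ι] [DecidableEq ι]

/-- Two anticommuting similitudes. -/
structure Pel {R : Type} [CommRing R] (a b : Matrix (ι ⊕ ι) (ι ⊕ ι) R) (m n : ℕ) : Prop where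
  hm : 0 < m
  hn : 0 < n
  aa : a * a = -((m : R) • 1)
  bb : b * b = (n : R) • 1
  ab : a * b = -(b * a)
  aJ : aᵀ * J ι R = -(J ι R * a)
  bJ : bᵀ * J ι R = J ι R * b

section ring

variable {R : Type} [CommRing R] {a b : Matrix (ι ⊕ ι) (ι ⊕ ι) R} {m n : ℕ}

/-- The average of a form. -/
def avg (a b : Matrix (ι ⊕ ι) (ι ⊕ ι) R) (m n : ℕ) (P : Matrix (ι ⊕ ι) (ι ⊕ ι) R) :
    Matrix (ι ⊕ ι) (ι ⊕ ι) R :=
  ((m : R) * n) • P + (n : R) • (a * P * aᵀ) + (m : R) • (b * P * bᵀ) + a * b * P * (a * b)ᵀ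

theorem Pel.Ja (h : Pel a b m n) : J ι R * a = -(aᵀ * J ι R) := by rw [h.aJ, neg_neg]

theorem Pel.avg_a (h : Pel a b m n) (P : Matrix (ι ⊕ ι) (ι ⊕ ι) R) :
    avg a b m n P * J ι R * a = a * (avg a b m n P * J ι R) := by
  have h1 : ∀ X : Matrix (ι ⊕ ι) (ι ⊕ ι) R, a * (a * X) = -((m : R) • X) := fun X => by
    rw [← Matrix.mul_assoc, h.aa, Matrix.neg_mul, Matrix.smul_mul, Matrix.one_mul]
  have h2 : aᵀ * (aᵀ * J ι R) = -((m : R) • J ι R) := by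
    rw [← Matrix.mul_assoc, ← transpose_mul, h.aa]
    simp
  rw [Matrix.mul_assoc, h.Ja]
  simp only [avg, transpose_mul, add_mul, mul_add, Matrix.mul_neg, Matrix.smul_mul,
    Matrix.mul_smul, Matrix.mul_assoc, h1, h2]
  module

theorem Pel.avg_b (h : Pel a b m n) (P : Matrix (ι ⊕ ι) (ι ⊕ ι) R) :
    avg a b m n P * J ι R * b = b * (avg a b m n P * J ι R) := by
  have h1 : ∀ X : Matrix (ι ⊕ ι) (ι ⊕ ι) R, b * (b * X) = (n : R) • X := fun X => by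
    rw [← Matrix.mul_assoc, h.bb, Matrix.smul_mul, Matrix.one_mul]
  have h2 : bᵀ * (bᵀ * J ι R) = (n : R) • J ι R := by
    rw [← Matrix.mul_assoc, ← transpose_mul, h.bb]
    simp
  have h3 : ∀ X : Matrix (ι ⊕ ι) (ι ⊕ ι) R, b * (a * X) = -(a * (b * X)) := fun X => by
    rw [← Matrix.mul_assoc a, h.ab, Matrix.neg_mul, neg_neg, Matrix.mul_assoc]
  have h4 : ∀ X : Matrix (ι ⊕ ι) (ι ⊕ ι) R, aᵀ * (bᵀ * X) = -(bᵀ * (aᵀ * X)) := fun X => by
    rw [← Matrix.mul_assoc bᵀ, ← transpose_mul, h.ab, transpose_neg, transpose_mul, Matrix.neg_mul,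
      neg_neg, Matrix.mul_assoc]
  have h5 : bᵀ * (bᵀ * (aᵀ * J ι R)) = (n : R) • (aᵀ * J ι R) := by
    rw [← Matrix.mul_assoc, ← transpose_mul, h.bb]
    simp
  rw [Matrix.mul_assoc, ← h.bJ]
  simp only [avg, transpose_mul, add_mul, mul_add, Matrix.mul_neg, Matrix.smul_mul,
    Matrix.mul_smul, Matrix.mul_assoc, h1, h2, h3, h4, h5]
  module

/-- The four images of a vector. -/
def orb (a b : Matrix (ι ⊕ ι) (ι ⊕ ι) R) (v : ι ⊕ ι → R) : Fin 4 → ι ⊕ ι → R :=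
  ![v, a *ᵥ v, b *ᵥ v, (a * b) *ᵥ v]

omit [DecidableEq ι] in
theorem avg_vec (v : ι ⊕ ι → R) : avg a b m n (vecMulVec v v) =
    ∑ k : Fin 4, ![(m : R) * n, n, m, 1] k • vecMulVec (orb a b v k) (orb a b v k) := by
  have e : ∀ x : Matrix (ι ⊕ ι) (ι ⊕ ι) R,
      x * vecMulVec v v * xᵀ = vecMulVec (x *ᵥ v) (x *ᵥ v) := fun x => by
    rw [mul_vecMulVec, vecMulVec_mul, vecMul_transpose]
  rw [avg, e, e, e]
  simp [Fin.sum_univ_four, orb]

theorem sp_of_iso {α : Type} [Fintype α] (c : α → R) (w : α → ι ⊕ ι → R)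
    (h : ∀ k l, w k ⬝ᵥ J ι R *ᵥ w l = 0) (q : R) :
    1 + q • ((∑ k, c k • vecMulVec (w k) (w k)) * J ι R) ∈ symplecticGroup ι R := by
  have h1 : (∑ k, c k • vecMulVec (w k) (w k))ᵀ = ∑ k, c k • vecMulVec (w k) (w k) := by
    simp only [transpose_sum, transpose_smul, transpose_vecMulVec]
  have h2 : (∑ k, c k • vecMulVec (w k) (w k)) * (J ι R * ∑ k, c k • vecMulVec (w k) (w k)) = 0 := by
    rw [Matrix.sum_mul]
    refine Finset.sum_eq_zero fun k _ => ?_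
    rw [Matrix.mul_sum, Matrix.mul_sum]
    refine Finset.sum_eq_zero fun l _ => ?_
    rw [Matrix.mul_smul, mul_vecMulVec, Matrix.smul_mul, Matrix.mul_smul, vecMulVec_mul_vecMulVec, h]
    simp
  generalize ∑ k, c k • vecMulVec (w k) (w k) = S at h1 h2
  have h3 : ∀ X : Matrix (ι ⊕ ι) (ι ⊕ ι) R, J ι R * (J ι R * X) = -X := fun X => by
    rw [← Matrix.mul_assoc, J_squared, Matrix.neg_mul, Matrix.one_mul]
  rw [SymplecticGroup.mem_iff, transpose_add, transpose_smul, transpose_mul, h1, J_transpose,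
    transpose_one]
  simp only [add_mul, mul_add, one_mul, mul_one, Matrix.smul_mul, Matrix.mul_smul,
    Matrix.mul_assoc, Matrix.neg_mul, Matrix.mul_neg, h3, J_squared, neg_neg, h2]
  simp

end ring

variable {a b : ZM ι} {m n q : ℕ} {H : Set (RM ι)}

/-- A group of symplectic matrices that commute with `a`, `b` and contains the congruence subgroup
of level `q`. -/
structure Big (a b : ZM ι) (q : ℕ) (H : Set (RM ι)) : Prop where
  sim : ∀ g ∈ H, Sim g 1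
  inv : ∀ g ∈ H, ∃ g' ∈ H, g * g' = 1
  mul : ∀ g ∈ H, ∀ h ∈ H, g * h ∈ H
  ca : ∀ g ∈ H, g * zr a = zr a * g
  cb : ∀ g ∈ H, g * zr b = zr b * g
  lev : ∀ γ β : ZM ι, γ ∈ symplecticGroup ι ℤ → γ = 1 + (q : ℤ) • β → γ * a = a * γ →
    γ * b = b * γ → zr γ ∈ H

omit [DecidableEq ι] in
theorem rz_orb (v : ι ⊕ ι → ℤ) (k : Fin 4) : rz (orb a b v k) = orb (zr a) (zr b) (rz v) k := by
  fin_cases k <;> simp [orb, ← zr_mulVec, zr_mul]

omit [Fintype ι] in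
theorem not_nd (hn : ¬ ND H) :
    ∃ ε : ℝ, 0 < ε ∧ ∀ g ∈ H, g ≠ 1 → ¬ ∀ i j, |(g - 1) i j| < ε := by
  by_contra h
  push Not at h
  exact hn h

theorem Big.short (h : Big a b q H) (hP : Pel a b m n) (hq : q ≠ 0) (hn : ¬ ND H) : ∃ ε : ℝ,
    0 < ε ∧ ∀ g ∈ H, ∀ g', g * g' = 1 → ∀ v : ι ⊕ ι → ℤ, v ≠ 0 →
      ε ≤ (g' *ᵥ rz v) ⬝ᵥ (g' *ᵥ rz v) := by
  obtain ⟨ε, hε, hn⟩ := not_nd hn
  let c : Fin 4 → ℝ := ![(m : ℝ) * n, n, m, 1]
  let Φ : (ι ⊕ ι → ℝ) → RM ι := fun u =>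
    (q : ℝ) • ((∑ k, c k • vecMulVec (orb (zr a) (zr b) u k) (orb (zr a) (zr b) u k)) * J ι ℝ)
  have ho : ∀ k, Continuous fun u : ι ⊕ ι → ℝ => orb (zr a) (zr b) u k := fun k => by
    fin_cases k <;> simp only [orb] <;> fun_prop
  have ho0 : ∀ k, orb (zr a) (zr b) 0 k = 0 := fun k => by fin_cases k <;> simp [orb]
  have hΦ : Continuous Φ := by fun_prop
  have e1 : ∀ᶠ u in 𝓝 (0 : ι ⊕ ι → ℝ), ∀ i j, |Φ u i j| < ε :=
    eventually_all.2 fun i => eventually_all.2 fun j =>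
      (hΦ.matrix_elem i j).abs.continuousAt.eventually_lt continuousAt_const (by simpa [Φ, ho0])
  have e2 : ∀ᶠ u in 𝓝 (0 : ι ⊕ ι → ℝ), ∀ k l,
      |orb (zr a) (zr b) u k ⬝ᵥ J ι ℝ *ᵥ orb (zr a) (zr b) u l| < 1 :=
    eventually_all.2 fun k => eventually_all.2 fun l =>
      (Continuous.abs (by fun_prop)).continuousAt.eventually_lt continuousAt_const (by simp [ho0])
  obtain ⟨r, hr, hb⟩ := Metric.eventually_nhds_iff_ball.1 (e1.and e2)
  refine ⟨r ^ 2, by positivity, fun g hg g' e v hv => not_lt.1 fun hlt => ?_⟩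
  obtain ⟨g'', hg', e'⟩ := h.inv g hg
  obtain rfl : g'' = g' := (left_inv_eq_right_inv (mul_eq_one_comm.1 e') e)
  obtain ⟨b1, b2⟩ := hb (g'' *ᵥ rz v) (by
    rw [mem_ball_zero_iff, pi_norm_lt_iff hr]
    intro i
    refine abs_lt_of_sq_lt_sq (lt_of_le_of_lt ?_ hlt) hr.le
    rw [sq]
    exact Finset.single_le_sum (f := fun j => (g'' *ᵥ rz v) j * (g'' *ᵥ rz v) j)
      (fun j _ => mul_self_nonneg _) (Finset.mem_univ i))
  have c1 : ∀ k, orb (zr a) (zr b) (g'' *ᵥ rz v) k = g'' *ᵥ rz (orb a b v k) := fun k => by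
    rw [rz_orb]
    fin_cases k <;> simp [orb, h.ca _ hg', h.cb _ hg', ← Matrix.mul_assoc]
    rw [Matrix.mul_assoc, Matrix.mul_assoc, h.cb _ hg']
  have c2 : ∀ k l, orb a b v k ⬝ᵥ J ι ℤ *ᵥ orb a b v l = 0 := fun k l => by
    have d1 := b2 k l
    have d2 := h.sim _ hg' (rz (orb a b v k)) (rz (orb a b v l))
    have hJ : zr (J ι ℤ) = J ι ℝ := Matrix.map_J ι (Int.castRingHom ℝ)
    rw [E_eq, E_eq, one_mul, neg_inj] at d2
    rw [c1, c1, d2, ← hJ, zr_mulVec] at d1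
    have d3 : rz (orb a b v k) ⬝ᵥ rz (J ι ℤ *ᵥ orb a b v l) =
        ((orb a b v k ⬝ᵥ J ι ℤ *ᵥ orb a b v l : ℤ) : ℝ) := by simp [rz, dotProduct]
    rw [d3, ← Int.cast_abs, ← Int.cast_one, Int.cast_lt] at d1
    exact Int.abs_lt_one_iff.1 d1
  have c3 := sp_of_iso ![(m : ℤ) * n, n, m, 1] (orb a b v) c2 (q : ℤ)
  have c4 := h.lev _ _ c3 rfl
    (by rw [← avg_vec, add_mul, mul_add, Matrix.smul_mul, Matrix.mul_smul, hP.avg_a, one_mul, mul_one])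
    (by rw [← avg_vec, add_mul, mul_add, Matrix.smul_mul, Matrix.mul_smul, hP.avg_b, one_mul, mul_one])
  have c5 : J ι ℝ * g = g''ᵀ * J ι ℝ := by
    conv_rhs => rw [← one_smul ℝ (J ι ℝ), ← (sim_iff _ _).1 (h.sim g hg), ← Matrix.mul_assoc,
      ← Matrix.mul_assoc, ← transpose_mul, e, transpose_one, Matrix.one_mul]
  have c6 : g'' * zr (1 + (q : ℤ) • ((∑ k, ![(m : ℤ) * n, n, m, 1] k •
      vecMulVec (orb a b v k) (orb a b v k)) * J ι ℤ)) * g - 1 = Φ (g'' *ᵥ rz v) := by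
    have hJ : zr (J ι ℤ) = J ι ℝ := Matrix.map_J ι (Int.castRingHom ℝ)
    have d : zr (∑ k, ![(m : ℤ) * n, n, m, 1] k • vecMulVec (orb a b v k) (orb a b v k)) =
        ∑ k, c k • vecMulVec (rz (orb a b v k)) (rz (orb a b v k)) := by
      ext i j
      simp only [zr, map_apply, Matrix.sum_apply, Matrix.smul_apply, vecMulVec_apply, smul_eq_mul]
      simp [rz, c, Fin.sum_univ_four]
    rw [zr_add, zr_one, zr_smul, zr_mul, hJ, d, mul_add, add_mul, mul_one, mul_eq_one_comm.1 e,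
      add_sub_cancel_left, Matrix.mul_smul, Matrix.smul_mul, Matrix.mul_assoc, Matrix.mul_assoc, c5,
      ← Matrix.mul_assoc, ← Matrix.mul_assoc]
    simp only [Φ, c1, Int.cast_natCast, Matrix.mul_sum, Matrix.sum_mul, Matrix.mul_smul,
      Matrix.smul_mul, mul_vecMulVec, vecMulVec_mul, vecMul_transpose]
  refine hn _ (h.mul _ (h.mul _ hg' _ c4) _ hg) (fun e0 => hv ?_) (c6 ▸ b1)
  rw [e0, sub_self, eq_comm, smul_eq_zero] at c6
  have d1 := congrArg (· * J ι ℝ) (c6.resolve_left (Nat.cast_ne_zero.2 hq))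
  simp only [Matrix.mul_assoc, J_squared, Matrix.zero_mul, Matrix.mul_neg, Matrix.mul_one,
    neg_eq_zero] at d1
  have d2 : g'' *ᵥ rz v = 0 := funext fun i => by
    have d3 := congrFun (congrFun d1 i) i
    have hm : (0 : ℝ) < m := Nat.cast_pos.2 hP.hm
    have hn : (0 : ℝ) < n := Nat.cast_pos.2 hP.hn
    rw [Matrix.sum_apply, Matrix.zero_apply, Finset.sum_eq_zero_iff_of_nonneg fun k _ => by
      rw [Matrix.smul_apply, vecMulVec_apply]
      refine mul_nonneg ?_ (mul_self_nonneg _)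
      fin_cases k <;> simp [c] <;> positivity] at d3
    simpa [c, orb, vecMulVec_apply, hm.ne', hn.ne'] using d3 0 (Finset.mem_univ _)
  have d4 := congrArg (g *ᵥ ·) d2
  simp only [mulVec_mulVec, e, one_mulVec, mulVec_zero] at d4
  funext i
  exact Int.cast_eq_zero.1 (congrFun d4 i)

theorem Big.nd (h : Big a b q H) (hP : Pel a b m n) (hq : q ≠ 0) {p : ℕ}
    (hd : ∀ g ∈ H, ∃ j : ℕ, IntM ((p : ℝ) ^ j • g)) (hu : ∀ j : ℕ, ∃ g ∈ H, ¬ IntM ((p : ℝ) ^ j • g)) :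
    ND H := by
  by_contra hn
  obtain ⟨ε, hε, h1⟩ := h.short hP hq hn
  obtain ⟨η, hη, hn⟩ := not_nd hn
  obtain ⟨C, hC⟩ := mahler ι hε
  choose δ hδ hδ' using hu
  choose δ' hi hi' using fun j => h.inv _ (hδ j)
  choose γ hγ using fun j => hC (δ j) (δ' j) (h.sim _ (hδ j)) (hi' j) (h1 _ (hδ j) _ (hi' j))
  have : NeZero q := ⟨hq⟩
  obtain ⟨y, hy⟩ := Finite.exists_infinite_fiber fun j => (γ j).1.map (Int.cast : ℤ → ZMod q)
  obtain ⟨ψ, hψ, hψ'⟩ := extraction_of_frequently_atTop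
    (Nat.frequently_atTop_iff_infinite.2 (Set.infinite_coe_iff.1 hy))
  obtain ⟨k, -, φ, hφ, hk⟩ := (isCompact_closedBall (0 : ι ⊕ ι → ι ⊕ ι → ℝ) (max C 0)).tendsto_subseq
    (x := fun j i l => (zr (γ (ψ j)).1 * δ (ψ j)) i l) fun j => by
      rw [mem_closedBall_zero_iff, pi_norm_le_iff_of_nonneg (le_max_right _ _)]
      intro i
      rw [pi_norm_le_iff_of_nonneg (le_max_right _ _)]
      exact fun l => (hγ _ i l).trans (le_max_left _ _)
  let κ : ℕ → RM ι := fun j => zr (γ (ψ (φ j))).1 * δ (ψ (φ j))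
  let κ' : ℕ → RM ι := fun j => δ' (ψ (φ j)) * zr (γ (ψ (φ j)))⁻¹.1
  have hγ1 : ∀ g : symplecticGroup ι ℤ, zr g⁻¹.1 * zr g.1 = 1 := fun g => by
    rw [← zr_mul, ← zr_one]
    exact congrArg (fun x : symplecticGroup ι ℤ => zr x.1) (inv_mul_cancel g)
  have k1 : ∀ j, κ' j * κ j = 1 := fun j => by
    simp only [κ, κ']
    rw [Matrix.mul_assoc, ← Matrix.mul_assoc (zr _), hγ1, Matrix.one_mul, mul_eq_one_comm.1 (hi' _)]
  have k2 : ∀ j, κ' j = -(J ι ℝ * (κ j)ᵀ * J ι ℝ) := fun j => by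
    have s : Sim (κ j) 1 := by simpa using ((sim_zr_iff _).2 (γ _).2).mul (h.sim _ (hδ _))
    have := s.act_linv one_ne_zero
    rw [inv_one, neg_one_smul] at this
    exact (left_inv_eq_right_inv this (mul_eq_one_comm.1 (k1 j))).symm
  have t1 : Tendsto κ atTop (𝓝 (Matrix.of k)) := hk
  have t2 : Tendsto κ' atTop (𝓝 (-(J ι ℝ * (Matrix.of k)ᵀ * J ι ℝ))) :=
    (((by fun_prop : Continuous fun x : RM ι => -(J ι ℝ * xᵀ * J ι ℝ)).tendsto _).comp t1).congr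
      fun j => (k2 j).symm
  generalize -(J ι ℝ * (Matrix.of k)ᵀ * J ι ℝ) = k' at t2
  have t3 : k' * Matrix.of k = 1 :=
    tendsto_nhds_unique (t2.mul t1) (tendsto_const_nhds.congr fun j => (k1 j).symm)
  have u : ∀ {f : ℕ × ℕ → RM ι} {ρ : ℝ}, 0 < ρ → Tendsto f atTop (𝓝 0) →
      ∀ᶠ x in atTop, ∀ i j, |f x i j| < ρ := fun hρ hf =>
    eventually_all.2 fun i => eventually_all.2 fun j =>
      (((continuous_id.matrix_elem i j).abs.tendsto _).comp hf).eventually_lt tendsto_const_nhds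
        (by simpa)
  have p1 : Tendsto (Prod.fst : ℕ × ℕ → ℕ) atTop atTop := by
    rw [← prod_atTop_atTop_eq]
    exact tendsto_fst
  have p2 : Tendsto (Prod.snd : ℕ × ℕ → ℕ) atTop atTop := by
    rw [← prod_atTop_atTop_eq]
    exact tendsto_snd
  have u1 := u (f := fun x => κ' x.1 * κ x.2 - 1) hη (by
    simpa [t3] using ((t2.comp p1).mul (t1.comp p2)).sub_const 1)
  have u2 : ∀ c : RM ι, ∀ᶠ x : ℕ × ℕ in atTop, ∀ i j,
      |(κ x.1 * c * κ' x.1 - κ x.2 * c * κ' x.2) i j| < 1 := fun c => u one_pos (by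
    simpa using (((t1.mul_const c).mul t2).comp p1).sub (((t1.mul_const c).mul t2).comp p2))
  obtain ⟨⟨N, N'⟩, hN⟩ := eventually_atTop.1 (u1.and ((u2 (zr a)).and (u2 (zr b))))
  obtain ⟨j, hj⟩ := hd _ (hδ (ψ (φ N)))
  obtain ⟨v1, v2, v3⟩ := hN (N, max N' j) ⟨le_rfl, le_max_left _ _⟩
  have hle : j ≤ ψ (φ (max N' j)) := (le_max_right _ _).trans ((hψ.comp hφ).id_le _)
  have hy' : (γ (ψ (φ N))).1.map (Int.cast : ℤ → ZMod q) =
      (γ (ψ (φ (max N' j)))).1.map (Int.cast : ℤ → ZMod q) := (hψ' _).trans (hψ' _).symm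
  simp only [κ, κ'] at v1 v2 v3
  generalize ψ (φ N) = s at *
  generalize ψ (φ (max N' j)) = t at *
  have w : ∀ c : ZM ι, (∀ g ∈ H, g * zr c = zr c * g) → (∀ i j,
      |(zr (γ s).1 * δ s * zr c * (δ' s * zr (γ s)⁻¹.1) -
        zr (γ t).1 * δ t * zr c * (δ' t * zr (γ t)⁻¹.1)) i j| < 1) →
      ((γ s)⁻¹ * γ t).1 * c = c * ((γ s)⁻¹ * γ t).1 := fun c hc hv => by
    have e : ∀ x, zr (γ x).1 * δ x * zr c * (δ' x * zr (γ x)⁻¹.1) =
        zr ((γ x).1 * c * (γ x)⁻¹.1) := fun x => by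
      rw [Matrix.mul_assoc (zr _), hc _ (hδ x), Matrix.mul_assoc, Matrix.mul_assoc,
        ← Matrix.mul_assoc (δ x), hi', Matrix.one_mul, zr_mul, zr_mul, Matrix.mul_assoc]
    have e1 : (γ s).1 * c * (γ s)⁻¹.1 = (γ t).1 * c * (γ t)⁻¹.1 := by
      ext i l
      have := hv i l
      rw [e, e, Matrix.sub_apply, zr, zr, map_apply, map_apply] at this
      exact sub_eq_zero.1 (Int.abs_lt_one_iff.1 (by exact_mod_cast this))
    have e2 : ∀ g : symplecticGroup ι ℤ, g⁻¹.1 * g.1 = 1 := fun g =>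
      congrArg Subtype.val (inv_mul_cancel g)
    calc (γ s)⁻¹.1 * (γ t).1 * c = (γ s)⁻¹.1 * ((γ t).1 * c * (γ t)⁻¹.1) * (γ t).1 := by
          simp only [Matrix.mul_assoc, e2, Matrix.mul_one]
      _ = c * ((γ s)⁻¹.1 * (γ t).1) := by
          rw [← e1, ← Matrix.mul_assoc, ← Matrix.mul_assoc, e2, Matrix.one_mul, Matrix.mul_assoc]
  choose β hβ using fun i l =>
    (ZMod.intCast_eq_intCast_iff_dvd_sub _ _ q).1 (congrFun (congrFun hy' i) l)
  have w1 : zr ((γ s)⁻¹ * γ t).1 ∈ H :=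
    h.lev _ ((γ s)⁻¹.1 * Matrix.of β) ((γ s)⁻¹ * γ t).2 (by
      have e : (γ t).1 - (γ s).1 = (q : ℤ) • Matrix.of β := Matrix.ext hβ
      have e2 : (γ s)⁻¹.1 * (γ s).1 = 1 := congrArg Subtype.val (inv_mul_cancel (γ s))
      rw [← Matrix.mul_smul, ← e, Matrix.mul_sub, e2, add_sub_cancel]
      rfl) (w a h.ca v2) (w b h.cb v3)
  have w2 : δ' s * zr (γ s)⁻¹.1 * (zr (γ t).1 * δ t) = δ' s * zr ((γ s)⁻¹ * γ t).1 * δ t := by
    rw [Submonoid.coe_mul, zr_mul]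
    simp only [Matrix.mul_assoc]
  have w3 : δ' s * zr (γ s)⁻¹.1 * (zr (γ t).1 * δ t) = 1 := not_not.1 fun hne =>
    hn _ (w2 ▸ h.mul _ (h.mul _ (hi s) _ w1) _ (hδ t)) hne v1
  have w4 : δ t = zr ((γ t)⁻¹ * γ s).1 * δ s := by
    have e := congrArg (fun x => zr (γ t)⁻¹.1 * (zr (γ s).1 * (δ s * x))) w3
    simp only [Matrix.mul_assoc, Matrix.mul_one] at e
    rw [← Matrix.mul_assoc (δ s), hi', Matrix.one_mul, ← Matrix.mul_assoc (zr (γ s).1),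
      mul_eq_one_comm.1 (hγ1 _), Matrix.one_mul, ← Matrix.mul_assoc, hγ1, Matrix.one_mul] at e
    rw [e, Submonoid.coe_mul, zr_mul, Matrix.mul_assoc]
  obtain ⟨B, hB⟩ := hj
  obtain ⟨d, hd'⟩ := Nat.exists_eq_add_of_le' hle
  refine hδ' t ⟨(p : ℤ) ^ d • (((γ t)⁻¹ * γ s).1 * B), ?_⟩
  rw [zr_smul, zr_mul, ← hB, Matrix.mul_smul, ← w4, smul_smul, congrArg ((p : ℝ) ^ ·) hd', pow_add]
  push_cast
  rfl

end M8.E3
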