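import Pool.Agent.Lib.MP_33b3f9_ag.M8.E3.Lim
import Pool.Agent.Lib.MP_33b3f9_ag.M4.FP.Pm

/-! The complex structure of a point of the Siegel space as a matrix. -/

set_option autoImplicit false

noncomputable section

namespace M8.E3

open Matrix Filter Topology M4 Complex

variable {ι : Type} [Fintype ι] [DecidableEq ι] {τ z : Matrix ι ι ℂ}

theorem rw_mulVec (τ : Matrix ι ι ℂ) (x : ι ⊕ ι → ℝ) :
    rw' τ *ᵥ (fun i => (x i : ℂ)) = per τ x := by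
  rw [rw', fromCols_mulVec, one_mulVec]
  rfl

omit [DecidableEq ι] in
theorem cx_mulVec (g : MR ι) (x : ι ⊕ ι → ℝ) :
    cx g *ᵥ (fun i => (x i : ℂ)) = fun i => ((g *ᵥ x) i : ℂ) := by
  funext i
  simp [cx, mulVec, dotProduct]

theorem rw_cst (hτ : InH τ) : rw' τ * cx (cst τ) = I • rw' τ := by
  refine ext_of_mulVec_single fun j => ?_
  have e : (Pi.single j 1 : ι ⊕ ι → ℂ) = fun i => ((Pi.single j 1 : ι ⊕ ι → ℝ) i : ℂ) := by
    funext i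
    simp [Pi.single_apply, apply_ite ofReal]
  rw [e, ← mulVec_mulVec, cx_mulVec, rw_mulVec, per_cst hτ, smul_mulVec, rw_mulVec]

theorem cst_sq (hτ : InH τ) : cst τ * cst τ = -1 := by
  refine Matrix.ext_iff_mulVec.2 fun x => (per_bijective hτ).1 ?_
  rw [← mulVec_mulVec, per_cst hτ, per_cst hτ, smul_smul, I_mul_I, neg_mulVec, one_mulVec,
    ← rw_mulVec, ← rw_mulVec, neg_one_smul, ← mulVec_neg]
  congr 1
  funext i
  simp

theorem cst_sp (hτ : InH τ) : (cst τ)ᵀ * J ι ℝ + J ι ℝ * cst τ = 0 := by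
  obtain ⟨g, -, e⟩ := FP.Pm_fac hτ
  have h : (J ι ℝ * cst τ)ᵀ = J ι ℝ * cst τ := by
    change (FP.Pm τ)ᵀ = FP.Pm τ
    rw [e, transpose_mul, transpose_transpose]
  rw [← h, transpose_mul, J_transpose, Matrix.mul_neg, add_neg_cancel]

theorem J_cl (hτ : τ.IsSymm) : J ι ℂ * cl' τ = (rw' τ)ᵀ := by
  rw [J, cl', rw', fromBlocks_mul_fromRows, transpose_fromCols, hτ.eq]
  simp

theorem cst_cl (hτ : InH τ) : cx (cst τ) * cl' τ = -I • cl' τ := by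
  have h1 : (cx (cst τ))ᵀ * J ι ℂ + J ι ℂ * cx (cst τ) = 0 := cx_mem_spC (cst_sp hτ)
  have h2 : J ι ℂ * (cx (cst τ) * cl' τ) = J ι ℂ * (-I • cl' τ) := by
    rw [← Matrix.mul_assoc, eq_neg_of_add_eq_zero_right h1, Matrix.neg_mul, Matrix.mul_assoc,
      J_cl hτ.1, ← transpose_mul, rw_cst hτ, Matrix.mul_smul, J_cl hτ.1, transpose_smul, neg_smul]
  have h3 := congrArg (fun M => J ι ℂ * M) h2
  simpa only [← Matrix.mul_assoc, J_squared, Matrix.neg_mul, Matrix.one_mul, neg_inj] using h3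

theorem cst_add_det (hz : InH z) (hτ : InH τ) : (cst z + cst τ).det ≠ 0 := by
  intro h
  obtain ⟨v, hv, h1⟩ := exists_mulVec_eq_zero_iff.2 h
  obtain ⟨g, hg, e⟩ := FP.Pm_fac hz
  obtain ⟨k, -, e'⟩ := FP.Pm_fac hτ
  have h2 : v ⬝ᵥ (FP.Pm z + FP.Pm τ) *ᵥ v = 0 := by
    rw [FP.Pm, FP.Pm, ← Matrix.mul_add, ← mulVec_mulVec, h1, mulVec_zero, dotProduct_zero]
  have h3 : ∀ g : MR ι, v ⬝ᵥ (gᵀ * g) *ᵥ v = (g *ᵥ v) ⬝ᵥ (g *ᵥ v) := fun g => by
    rw [← mulVec_mulVec, dotProduct_mulVec, vecMul_transpose]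
  have h4 : ∀ w : ι ⊕ ι → ℝ, 0 ≤ w ⬝ᵥ w := fun w => Finset.sum_nonneg fun i _ => mul_self_nonneg _
  rw [add_mulVec, dotProduct_add, e, e', h3, h3] at h2
  have h5 : g *ᵥ v = 0 := dotProduct_self_eq_zero.1 (by linarith [h4 (g *ᵥ v), h4 (k *ᵥ v)])
  exact (FP.sim_of_mem hg).det_ne_zero one_ne_zero (exists_mulVec_eq_zero_iff.1 ⟨v, hv, h5⟩)

/-- The hermitian form of the polarisation. -/
def hq (w : ι ⊕ ι → ℂ) : ℝ := (star w ⬝ᵥ J ι ℂ *ᵥ w).im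

theorem hq_cl (σ : Matrix ι ι ℂ) (u : ι → ℂ) : hq (cl' σ *ᵥ u) = 2 * (star u ⬝ᵥ σ *ᵥ u).im := by
  have e : star (Sum.elim u (-(σ *ᵥ u))) = Sum.elim (star u) (-star (σ *ᵥ u)) := by
    funext i
    rcases i with i | i <;> simp
  rw [hq, cl', fromRows_mulVec, one_mulVec, neg_mulVec, J, fromBlocks_mulVec, e,
    sumElim_dotProduct_sumElim]
  simp only [Sum.elim_comp_inl, Sum.elim_comp_inr, zero_mulVec, neg_mulVec, one_mulVec, neg_neg,
    zero_add, add_zero, neg_dotProduct, add_im, neg_im]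
  rw [star_dotProduct (σ *ᵥ u)]
  simp only [star_def, conj_im]
  ring

theorem hq_add {N : MR ι} (hN : Nᵀ * J ι ℝ + J ι ℝ * N = 0) {x y : ι ⊕ ι → ℂ}
    (hx : cx N *ᵥ x = -I • x) (hy : cx N *ᵥ y = I • y) (s : ℝ) :
    hq (x + (s : ℂ) • y) = hq x + s ^ 2 * hq y := by
  have h1 : (cx N)ᵀ * J ι ℂ + J ι ℂ * cx N = 0 := cx_mem_spC hN
  have h2 : ∀ a b : ι ⊕ ι → ℂ,
      star (cx N *ᵥ a) ⬝ᵥ J ι ℂ *ᵥ b + star a ⬝ᵥ J ι ℂ *ᵥ (cx N *ᵥ b) = 0 := fun a b => by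
    have e : (cx N)ᴴ = (cx N)ᵀ := by
      ext i j
      simp [cx]
    rw [star_mulVec, e, ← dotProduct_mulVec, mulVec_mulVec, mulVec_mulVec, ← dotProduct_add,
      ← add_mulVec, h1, zero_mulVec, dotProduct_zero]
  have h3 := h2 x y
  have h4 := h2 y x
  rw [hx, hy, star_smul, smul_dotProduct, mulVec_smul, dotProduct_smul, ← add_smul,
    smul_eq_zero] at h3 h4
  have h5 := h3.resolve_left (by simp [← two_mul])
  have h6 := h4.resolve_left (by simp [← two_mul])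
  rw [hq, hq, hq, star_add, star_smul, mulVec_add, mulVec_smul, add_dotProduct, dotProduct_add,
    dotProduct_add, smul_dotProduct, smul_dotProduct, dotProduct_smul, dotProduct_smul, h5, h6]
  simp
  ring

theorem dc_det {g : MC ι} (h : ∀ u, u ≠ 0 → 0 < hq ((g * cl' z) *ᵥ u)) : (dc g z).det ≠ 0 := by
  intro h0
  obtain ⟨v, hv, h1⟩ := exists_mulVec_eq_zero_iff.2 h0
  have h2 := h v hv
  rw [mul_cl, fromRows_mulVec, h1, hq, J, fromBlocks_mulVec] at h2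
  generalize (-(g.toBlocks₂₂ * z - g.toBlocks₂₁)) *ᵥ v = w at h2
  have e : star (Sum.elim (0 : ι → ℂ) w) = Sum.elim (0 : ι → ℂ) (star w) := by
    funext i
    rcases i with i | i <;> simp
  rw [e, sumElim_dotProduct_sumElim] at h2
  simp at h2

theorem ac_symm {g : MC ι} (hg : gᵀ * J ι ℂ * g = J ι ℂ) (hz : z.IsSymm)
    (hd : (dc g z).det ≠ 0) : (ac g z).IsSymm := by
  have h0 : ∀ σ : Matrix ι ι ℂ, (cl' σ)ᵀ * (J ι ℂ * cl' σ) = σ - σᵀ := fun σ => by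
    rw [J, cl', fromBlocks_mul_fromRows, transpose_fromRows, fromCols_mul_fromRows]
    simp [sub_eq_add_neg]
  have h1 : (g * cl' z)ᵀ * (J ι ℂ * (g * cl' z)) = 0 := by
    rw [transpose_mul, Matrix.mul_assoc, ← Matrix.mul_assoc (J ι ℂ), ← Matrix.mul_assoc gᵀ,
      ← Matrix.mul_assoc gᵀ, hg, h0, hz.eq, sub_self]
  rw [mul_cl' hd, transpose_mul, Matrix.mul_assoc, ← Matrix.mul_assoc (J ι ℂ),
    ← Matrix.mul_assoc (cl' _)ᵀ, h0] at h1
  have hu : IsUnit (dc g z) := (isUnit_iff_isUnit_det _).2 hd.isUnit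
  exact (sub_eq_zero.1 (hu.mul_left_eq_zero.1
    (((isUnit_transpose _).2 hu).mul_right_eq_zero.1 h1))).symm

theorem ac_inH {g : MC ι} (hg : gᵀ * J ι ℂ * g = J ι ℂ) (hz : z.IsSymm)
    (h : ∀ u, u ≠ 0 → 0 < hq ((g * cl' z) *ᵥ u)) : InH (ac g z) := by
  have hd := dc_det h
  refine act_inH_iff.2 ⟨ac_symm hg hz hd, fun w hw => ?_⟩
  have h1 : dc g z *ᵥ ((dc g z)⁻¹ *ᵥ w) = w := by
    rw [mulVec_mulVec, mul_nonsing_inv _ hd.isUnit, one_mulVec]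
  have h2 := h ((dc g z)⁻¹ *ᵥ w) fun h0 => hw (by rw [← h1, h0, mulVec_zero])
  rw [mul_cl' hd, ← mulVec_mulVec, h1, hq_cl] at h2
  linarith

end M8.E3
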