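import Pool.Agent.Lib.MP_33b3f9_ag.M8.E3.Vf

/-! A group that accumulates at the identity gives a Lie algebra of vector fields. -/

set_option autoImplicit false

noncomputable section

namespace M8.E3

open Matrix Filter Topology M4

variable {ι : Type} [Fintype ι] [DecidableEq ι] {H : Set (MR ι)} {O : Set (Matrix ι ι ℂ)}

/-- The set `H` accumulates at the identity. -/
def ND {κ : Type} [DecidableEq κ] (H : Set (Matrix κ κ ℝ)) : Prop :=
  ∀ ε : ℝ, 0 < ε → ∃ h ∈ H, h ≠ 1 ∧ ∀ i j, |(h - 1) i j| < ε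

/-- `X` is a limit direction of `H` at the identity. -/
def Dir {κ : Type} [DecidableEq κ] (H : Set (Matrix κ κ ℝ)) (X : Matrix κ κ ℝ) : Prop :=
  ∃ (t : ℕ → ℝ) (Y : ℕ → Matrix κ κ ℝ), (∀ n, t n ≠ 0) ∧ (∀ n, 1 + t n • Y n ∈ H) ∧
    Tendsto t atTop (𝓝 0) ∧ Tendsto Y atTop (𝓝 X)

theorem ND.dir {κ : Type} [Fintype κ] [DecidableEq κ] {H : Set (Matrix κ κ ℝ)} (h : ND H) :
    ∃ X, X ≠ 0 ∧ Dir H X := by
  choose g hg h1 h2 using fun n : ℕ => h (1 / ((n : ℝ) + 1)) Nat.one_div_pos_of_nat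
  let d : ℕ → κ → κ → ℝ := fun n i j => (g n - 1) i j
  have hd : ∀ n, 0 < ‖d n‖ := fun n => norm_pos_iff.2 fun e => h1 n (sub_eq_zero.1 e)
  have h0 : Tendsto (fun n => ‖d n‖) atTop (𝓝 0) :=
    squeeze_zero (fun n => (hd n).le) (fun n => (pi_norm_le_iff_of_nonneg
      Nat.one_div_pos_of_nat.le).2 fun i => (pi_norm_le_iff_of_nonneg
        Nat.one_div_pos_of_nat.le).2 fun j => (h2 n i j).le) tendsto_one_div_add_atTop_nhds_zero_nat
  obtain ⟨X, hX, φ, hφ, hu⟩ := (isCompact_sphere (0 : κ → κ → ℝ) 1).tendsto_subseq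
    (x := fun n => ‖d n‖⁻¹ • d n) fun n => by
      rw [mem_sphere_zero_iff_norm, norm_smul, norm_inv, norm_norm, inv_mul_cancel₀ (hd n).ne']
  refine ⟨X, fun e => ?_, fun n => ‖d (φ n)‖, fun n => ‖d (φ n)‖⁻¹ • d (φ n),
    fun n => (hd _).ne', fun n => ?_, h0.comp hφ.tendsto_atTop, hu⟩
  · have e' : X = 0 := e
    simp [e'] at hX
  · have e : (1 : Matrix κ κ ℝ) + ‖d (φ n)‖ • (‖d (φ n)‖⁻¹ • (g (φ n) - 1)) = g (φ n) := by
      rw [smul_inv_smul₀ (hd _).ne', add_sub_cancel]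
    exact Set.mem_of_eq_of_mem e (hg _)

theorem Dir.comm {κ : Type} [Fintype κ] [DecidableEq κ] {H : Set (Matrix κ κ ℝ)}
    {X a : Matrix κ κ ℝ} (h : Dir H X) (ha : ∀ g ∈ H, g * a = a * g) : X * a = a * X := by
  obtain ⟨t, Y, h1, h2, -, h4⟩ := h
  refine tendsto_nhds_unique (((continuous_id.matrix_mul continuous_const).tendsto X).comp h4)
    ((((continuous_const.matrix_mul continuous_id).tendsto X).comp h4).congr fun n => ?_)
  have h5 := ha _ (h2 n)
  rw [Matrix.add_mul, Matrix.mul_add, Matrix.one_mul, Matrix.mul_one, add_right_inj,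
    Matrix.smul_mul, Matrix.mul_smul] at h5
  exact (smul_right_injective _ (h1 n) h5).symm

theorem Dir.sp {X : MR ι} (h : Dir H X) (hs : ∀ g ∈ H, Sim g 1) : Xᵀ * J ι ℝ + J ι ℝ * X = 0 := by
  obtain ⟨t, Y, h1, h2, h3, h4⟩ := h
  have hc : Continuous fun p : ℝ × MR ι => p.2ᵀ * J ι ℝ + J ι ℝ * p.2 + p.1 • (p.2ᵀ * J ι ℝ * p.2) :=
    by fun_prop
  have h5 := (hc.tendsto (0, X)).comp (h3.prodMk_nhds h4)
  rw [zero_smul, add_zero] at h5
  refine tendsto_nhds_unique h5 (tendsto_const_nhds.congr fun n => ?_)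
  have h6 := sim_iff.1 (hs _ (h2 n))
  refine (smul_right_injective _ (h1 n) ?_).symm
  simp only [transpose_add, transpose_one, transpose_smul, add_mul, mul_add, one_mul, mul_one,
    Matrix.smul_mul, Matrix.mul_smul, one_smul] at h6
  simp only [Function.comp]
  linear_combination (norm := module) h6

/-- Functions that are analytic on the Siegel space and vanish on `O`. -/
def Van (O : Set (Matrix ι ι ℂ)) (F : (ι → ι → ℂ) → ℂ) : Prop :=
  (∀ τ : Matrix ι ι ℂ, InH τ → AnalyticAt ℂ F τ) ∧ ∀ z ∈ O, F z = 0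

/-- The matrices whose vector field is tangent to `O`. -/
def tg (O : Set (Matrix ι ι ℂ)) : Submodule ℂ (MC ι) where
  carrier := {X | ∀ F, Van O F → ∀ z ∈ O, fderiv ℂ F z (vf X z) = 0}
  zero_mem' := fun F _ z _ => by
    rw [vf_zero]
    exact map_zero _
  add_mem' := fun {X Y} hX hY F hF z hz => by
    rw [vf_add]
    exact (map_add _ _ _).trans (by rw [hX F hF z hz, hY F hF z hz, add_zero])
  smul_mem' := fun c X hX F hF z hz => by
    rw [vf_smul]
    exact (map_smul _ _ _).trans (by rw [hX F hF z hz, smul_zero])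

/-- `H` acts on `O`. -/
structure Orb (H : Set (MR ι)) (O : Set (Matrix ι ι ℂ)) : Prop where
  sim : ∀ g ∈ H, Sim g 1
  inv : ∀ g ∈ H, ∃ g' ∈ H, g * g' = 1
  inH : ∀ z ∈ O, InH z
  st : ∀ g ∈ H, ∀ z ∈ O, act g z ∈ O

theorem Orb.dir (h : Orb H O) {X : MR ι} (hX : Dir H X) : cx X ∈ tg O := by
  intro F hF z hz
  obtain ⟨t, Y, h1, h2, h3, h4⟩ := hX
  have hc : Continuous (cx : MR ι → MC ι) := continuous_id.matrix_map Complex.continuous_ofReal
  have h5 : Tendsto (fun n => cx (1 + t n • Y n)) atTop (𝓝 1) := by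
    have := (hc.tendsto _).comp ((h3.smul h4).const_add 1)
    rwa [zero_smul, add_zero, cx_one] at this
  obtain ⟨h6, -⟩ := tendsto_inv ((continuous_dc.tendsto (1, z)).comp
    (h5.prodMk_nhds tendsto_const_nhds)) (by rw [dc_one, det_one]; exact one_ne_zero)
  have h7 : Continuous fun p : MR ι × Matrix ι ι ℂ => vf (cx p.1) z * p.2 := by
    unfold vf
    fun_prop
  have h8 := (h7.tendsto _).comp (h4.prodMk_nhds h6)
  simp only [dc_one, inv_one, Matrix.mul_one] at h8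
  have h9 := fd_lim (hF.1 z (h.inH z hz)) (t := fun n => (t n : ℂ))
    ((Complex.continuous_ofReal.tendsto' 0 0 rfl).comp h3)
    (.of_forall fun n => Complex.ofReal_ne_zero.2 (h1 n)) h8
  refine tendsto_nhds_unique h9 (tendsto_const_nhds.congr fun n => ?_)
  have e1 : cx (1 + t n • Y n) = 1 + (t n : ℂ) • cx (Y n) := by
    ext i j
    simp [cx, Matrix.one_apply, apply_ite Complex.ofReal]
  have e : act (1 + t n • Y n) z =
      z + (t n : ℂ) • (vf (cx (Y n)) z * (dc (cx (1 + t n • Y n)) z)⁻¹) := by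
    rw [← ac_cx, ac_eq (g := cx _) (den_det_ne_zero (h.sim _ (h2 n)) one_pos (h.inH z hz)) z]
    generalize (dc (cx (1 + t n • Y n)) z)⁻¹ = D
    rw [e1, Matrix.mul_add, Matrix.add_mul, Matrix.mul_one, rw_cl, sub_self, zero_add, vf,
      Matrix.mul_smul, Matrix.smul_mul, Matrix.smul_mul, Matrix.neg_mul, smul_neg, sub_eq_add_neg]
  have h10 := hF.2 _ (h.st _ (h2 n) z hz)
  rw [e] at h10
  simp only [Function.comp]
  rw [h10, hF.2 z hz, sub_zero, mul_zero]

theorem Orb.conj (h : Orb H O) {g g' : MR ι} (hg : g ∈ H) (e : g * g' = 1) {X : MC ι}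
    (hX : X ∈ tg O) : cx g * X * cx g' ∈ tg O := by
  intro F hF z hz
  obtain ⟨g'', hg', e'⟩ := h.inv g hg
  obtain rfl : g'' = g' := (left_inv_eq_right_inv (mul_eq_one_comm.1 e') e)
  have hz' := h.st _ hg' z hz
  have hd := den_det_ne_zero (h.sim g hg) one_pos (h.inH _ hz')
  have e1 : act g (act g'' z) = z := by
    rw [← act_mul (den_det_ne_zero (h.sim _ hg') one_pos (h.inH z hz)) hd, e, act_one]
  have h1 := hX (fun σ => F (act g (Matrix.of σ))) ⟨fun τ hτ =>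
    (hF.1 _ (inH_act (h.sim g hg) one_pos hτ)).comp_of_eq
      (analyticAt_act (den_det_ne_zero (h.sim g hg) one_pos hτ)) rfl,
    fun w hw => hF.2 _ (h.st g hg w hw)⟩ _ hz'
  rw [fd_act hd (hF.1 _ (inH_act (h.sim g hg) one_pos (h.inH _ hz'))),
    ← vf_conj (mul_eq_one_comm.1 e) hd, e1] at h1
  exact h1

/-- `H` acts irreducibly on `𝔤` by conjugation. -/
def Irr (H : Set (MR ι)) (𝔤 : Submodule ℂ (MC ι)) : Prop :=
  ∀ k : Submodule ℂ (MC ι), k ≤ 𝔤 →
    (∀ g ∈ H, ∀ g', g * g' = 1 → ∀ X ∈ k, cx g * X * cx g' ∈ k) → k = ⊥ ∨ k = 𝔤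

theorem Orb.le_tg (h : Orb H O) {𝔤 : Submodule ℂ (MC ι)} {G : Set (MR ι)} (hG : G ⊆ H)
    (hi : Irr G 𝔤) (hst : ∀ g ∈ G, ∀ g', g * g' = 1 → ∀ X ∈ 𝔤, cx g * X * cx g' ∈ 𝔤) {X : MR ι}
    (hX : Dir H X) (h0 : X ≠ 0) (h1 : cx X ∈ 𝔤) : 𝔤 ≤ tg O := by
  rcases hi (𝔤 ⊓ tg O) inf_le_left (fun g hg g' e Y hY =>
    ⟨hst g hg g' e Y hY.1, h.conj (hG hg) e hY.2⟩) with h2 | h2
  · have h3 : cx X ∈ 𝔤 ⊓ tg O := ⟨h1, h.dir hX⟩
    rw [h2, Submodule.mem_bot] at h3
    exact absurd (Matrix.ext fun i j => Complex.ofReal_eq_zero.1 (congrFun (congrFun h3 i) j)) h0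
  · exact inf_eq_left.1 h2

/-- Integral curves through a point of `O`. -/
theorem curve_zero {N : MC ι} (hN : N ∈ tg O) {c : ℂ → ι → ι → ℂ} {U : Set ℂ} (hU : IsOpen U)
    (hc : IsPreconnected U) (h0 : (0 : ℂ) ∈ U) (hH : ∀ s ∈ U, InH (Matrix.of (c s)))
    (hd : ∀ s ∈ U, HasDerivAt c (vf N (c s)) s) (hO : Matrix.of (c 0) ∈ O) {F : (ι → ι → ℂ) → ℂ}
    (hF : Van O F) : ∀ s ∈ U, F (c s) = 0 := by
  have h1 : ∀ F, Van O F → Van O fun σ => fderiv ℂ F σ (vf N (Matrix.of σ)) := fun F hF =>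
    ⟨fun τ hτ => (ContinuousLinearMap.apply ℂ ℂ).flip.analyticAt_bilinear _ |>.comp₂
      (hF.1 τ hτ).fderiv (analyticAt_vf N τ), hN F hF⟩
  have h2 : ∀ F, Van O F → ∀ s ∈ U,
      HasDerivAt (fun s => F (c s)) (fderiv ℂ F (c s) (vf N (c s))) s := fun F hF s hs =>
    (hF.1 _ (hH s hs)).differentiableAt.hasFDerivAt.comp_hasDerivAt s (hd s hs)
  have h3 : ∀ (n : ℕ) F, Van O F → iteratedDeriv n (fun s => F (c s)) 0 = 0 := by
    intro n
    induction n with
    | zero => exact fun F hF => hF.2 _ hO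
    | succ n ih =>
      intro F hF
      rw [iteratedDeriv_succ']
      exact (Filter.EventuallyEq.iteratedDeriv_eq n (Filter.mem_of_superset (hU.mem_nhds h0)
        fun s hs => (h2 F hF s hs).deriv)).trans (ih _ (h1 F hF))
  have h4 : AnalyticOnNhd ℂ (fun s => F (c s)) U :=
    DifferentiableOn.analyticOnNhd (fun s hs => (h2 F hF s hs).differentiableAt.differentiableWithinAt) hU
  refine h4.eqOn_zero_of_preconnected_of_eventuallyEq_zero hc h0 (analyticOrderAt_eq_top.1 ?_)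
  exact ENat.eq_top_iff_forall_ge.2 fun n =>
    (natCast_le_analyticOrderAt_iff_iteratedDeriv_eq_zero (h4 0 h0)).2 fun i _ => h3 i F hF

theorem exists_dom {U : Set ℂ} (hU : IsOpen U) (h : ∀ t : ℝ, 0 ≤ t → t ≤ 1 → (t : ℂ) ∈ U) :
    ∃ V ⊆ U, IsOpen V ∧ IsPreconnected V ∧ (0 : ℂ) ∈ V ∧ (1 : ℂ) ∈ V := by
  have h1 : Complex.ofReal '' Set.Icc 0 1 ⊆ connectedComponentIn U 0 :=
    (isPreconnected_Icc.image _ Complex.continuous_ofReal.continuousOn).subset_connectedComponentIn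
      ⟨0, by simp, rfl⟩ (by rintro _ ⟨t, ht, rfl⟩; exact h t ht.1 ht.2)
  exact ⟨_, connectedComponentIn_subset _ _, hU.connectedComponentIn,
    isPreconnected_connectedComponentIn, h1 ⟨0, by simp, rfl⟩, h1 ⟨1, by simp, rfl⟩⟩

omit [DecidableEq ι] in
theorem inH_of_posIm {τ : Matrix ι ι ℂ} (h1 : τ.IsSymm) (h2 : (fun i j => τ i j) ∈ PosIm ι) :
    InH τ :=
  ⟨h1, PosDef.of_dotProduct_mulVec_pos (isHermitian_iff_isSymm.2 (h1.map Complex.im))
    fun x hx => by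
      rw [star_trivial, ths_form]
      exact h2 x hx⟩

variable (ι) in
/-- The complex symplectic Lie algebra. -/
def spC : Submodule ℂ (MC ι) where
  carrier := {X | Xᵀ * J ι ℂ + J ι ℂ * X = 0}
  zero_mem' := by simp
  add_mem' := fun {X Y} (hX : _ = _) (hY : _ = _) => by
    change (X + Y)ᵀ * _ + _ * (X + Y) = 0
    rw [transpose_add, Matrix.add_mul, Matrix.mul_add, add_add_add_comm, hX, hY, add_zero]
  smul_mem' := fun c X (hX : _ = _) => by
    change (c • X)ᵀ * _ + _ * (c • X) = 0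
    rw [transpose_smul, Matrix.smul_mul, Matrix.mul_smul, ← smul_add, hX, smul_zero]

omit [Fintype ι] in
theorem cx_J : cx (J ι ℝ) = J ι ℂ := map_J ι Complex.ofRealHom

theorem cx_mem_spC {X : MR ι} (h : Xᵀ * J ι ℝ + J ι ℝ * X = 0) : cx X ∈ spC ι := by
  have h1 := congrArg (fun M : MR ι => Complex.ofRealHom.mapMatrix M) h
  simp only [map_add, map_mul, map_zero] at h1
  change (cx X)ᵀ * cx (J ι ℝ) + cx (J ι ℝ) * cx X = 0 at h1
  rwa [cx_J] at h1

theorem spC_conj {g g' : MR ι} {μ : ℝ} (hg : Sim g μ) (e : g * g' = 1) {X : MC ι}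
    (hX : X ∈ spC ι) : cx g * X * cx g' ∈ spC ι := by
  have h0 : (cx g)ᵀ * J ι ℂ * cx g = (μ : ℂ) • J ι ℂ := by
    have h1 := congrArg cx (sim_iff.1 hg)
    rw [cx_mul, cx_mul, cx_J] at h1
    refine h1.trans ?_
    rw [← cx_J]
    ext i j
    exact Complex.ofReal_mul _ _
  have h : cx g * cx g' = 1 := by rw [← cx_mul, e, cx_one]
  generalize cx g = a at h0 h
  generalize cx g' = b at h
  have h1 : aᵀ * J ι ℂ = (μ : ℂ) • (J ι ℂ * b) := by
    rw [← Matrix.smul_mul, ← h0, Matrix.mul_assoc _ a, h, Matrix.mul_one]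
  have h2 : J ι ℂ * a = (μ : ℂ) • (bᵀ * J ι ℂ) := by
    rw [← Matrix.mul_smul, ← h0, ← Matrix.mul_assoc, ← Matrix.mul_assoc, ← transpose_mul, h,
      transpose_one, Matrix.one_mul]
  have h3 : (a * X * b)ᵀ * J ι ℂ + J ι ℂ * (a * X * b) =
      (μ : ℂ) • (bᵀ * (Xᵀ * J ι ℂ + J ι ℂ * X) * b) := by
    rw [transpose_mul, transpose_mul, Matrix.mul_assoc, Matrix.mul_assoc, h1,
      ← Matrix.mul_assoc (J ι ℂ), ← Matrix.mul_assoc (J ι ℂ), h2]
    simp only [Matrix.mul_add, Matrix.add_mul, Matrix.mul_assoc, Matrix.smul_mul, Matrix.mul_smul,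
      smul_add]
  change _ = _
  rw [h3, show Xᵀ * J ι ℂ + J ι ℂ * X = 0 from hX, Matrix.mul_zero, Matrix.zero_mul, smul_zero]

/-- If all symplectic vector fields are tangent to `O`, a function that vanishes on `O` is zero. -/
theorem zero_of_sp (h : spC ι ≤ tg O) {z τ : Matrix ι ι ℂ} (hz : z ∈ O) (hz' : InH z) (hτ : InH τ)
    {F : (ι → ι → ℂ) → ℂ} (hF : Van O F) : F τ = 0 := by
  have hs : (τ - z).IsSymm := hτ.1.sub hz'.1
  have hN : fromBlocks 0 0 (-(τ - z)) 0 ∈ spC ι := by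
    change _ = _
    rw [fromBlocks_transpose, transpose_neg, hs.eq, J, fromBlocks_multiply, fromBlocks_multiply,
      fromBlocks_add, ← fromBlocks_zero]
    simp
  have hv : ∀ σ, vf (fromBlocks 0 0 (-(τ - z)) 0) σ = τ - z := fun σ => by
    rw [vf, rw', cl', fromCols_mul_fromBlocks, fromCols_mul_fromRows]
    simp
  let c : ℂ → ι → ι → ℂ := fun s i j => z i j + s * (τ - z) i j
  have hc : ∀ s, HasDerivAt c (τ - z) s := fun s =>
    hasDerivAt_pi.2 fun i => hasDerivAt_pi.2 fun j => by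
      have := ((hasDerivAt_id s).mul_const ((τ - z) i j)).const_add (z i j)
      rwa [one_mul] at this
  obtain ⟨V, h1, h2, h3, h4, h5⟩ := exists_dom (U := c ⁻¹' PosIm ι)
    (isOpen_posIm.preimage (continuous_iff_continuousAt.2 fun s => (hc s).continuousAt))
    fun t h0 h1 x hx => by
      have e : ∑ i, ∑ j, (c t i j).im * x i * x j = (1 - t) * ∑ i, ∑ j, (z i j).im * x i * x j +
          t * ∑ i, ∑ j, (τ i j).im * x i * x j := by
        simp only [c, Finset.mul_sum, ← Finset.sum_add_distrib]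
        refine Finset.sum_congr rfl fun i _ => Finset.sum_congr rfl fun j _ => ?_
        simp only [Complex.add_im, Complex.ofReal_im, Complex.mul_im, Complex.ofReal_re,
          Matrix.sub_apply, Complex.sub_im]
        ring
      have a1 := hz'.posIm x hx
      have a2 := hτ.posIm x hx
      rw [e]
      rcases h0.eq_or_lt with rfl | h0
      · simpa using a1
      · exact add_pos_of_nonneg_of_pos (mul_nonneg (sub_nonneg.2 h1) a1.le) (mul_pos h0 a2)
  have h6 := curve_zero (h hN) (c := c) h2 h3 h4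
    (fun s hs' => inH_of_posIm (hz'.1.add (hs.smul s)) (h1 hs')) (fun s _ => (hv _).symm ▸ hc s)
    (Set.mem_of_eq_of_mem (Matrix.ext fun i j => by simp [c]) hz) hF 1 h5
  refine Eq.trans (congrArg F ?_) h6
  funext i j
  simp [c]

/-- A group that accumulates at the identity and acts irreducibly on the Lie algebra has
analytically dense orbits. -/
theorem lim_zero (h : Orb H O) (hn : ND H) {G : Set (MR ι)} (hG : G ⊆ H) (hi : Irr G (spC ι))
    {z τ : Matrix ι ι ℂ} (hz : z ∈ O) (hτ : InH τ) {F : (ι → ι → ℂ) → ℂ}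
    (hF : DifferentiableOn ℂ F (PosIm ι)) (h0 : ∀ w ∈ O, F w = 0) : F τ = 0 := by
  obtain ⟨X, hX0, hX⟩ := hn.dir
  exact zero_of_sp (h.le_tg hG hi (fun g hg g' e _ hY => spC_conj (h.sim g (hG hg)) e hY) hX hX0
    (cx_mem_spC (hX.sp h.sim))) hz (h.inH z hz) hτ ⟨fun σ hσ =>
      Pool.Agent.Lib.MP_a47f92_an.Osg.analyticOnNhd_of_differentiableOn isOpen_posIm hF _
        hσ.posIm, h0⟩

end M8.E3
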