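import Pool.Agent.Lib.MP_33b3f9_ag.M4.FP.Pm
import Pool.Agent.Lib.MP_33b3f9_ag.M4.Red
import Pool.Agent.Lib.MP_33b3f9_ag.M4.CL.Mx

/-! The compactness criterion of Mahler for the symplectic group. -/

set_option autoImplicit false

namespace M8.E3

open Matrix M4 M4.CL

variable {ι : Type} [Fintype ι] [DecidableEq ι]

theorem mah_inv {Y : Matrix ι ι ℝ} (hY : Y.PosDef) {c : ℝ} (hc : 0 < c) (h1 : ∀ i, c ≤ Y i i)
    (h2 : ∀ v : ι → ℝ, c * ∑ i, Y i i * v i ^ 2 ≤ v ⬝ᵥ Y *ᵥ v) :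
    (∀ u : ι → ℝ, u ⬝ᵥ Y⁻¹ *ᵥ u ≤ (∑ i, u i ^ 2) / c ^ 2) ∧ ∀ i, c * Y i i * Y⁻¹ i i ≤ 1 := by
  have hd : IsUnit Y.det := hY.det_pos.ne'.isUnit
  have e : ∀ u : ι → ℝ, (Y⁻¹ *ᵥ u) ⬝ᵥ Y *ᵥ (Y⁻¹ *ᵥ u) = u ⬝ᵥ Y⁻¹ *ᵥ u := fun u => by
    rw [mulVec_mulVec, mul_nonsing_inv _ hd, one_mulVec, dotProduct_comm]
  refine ⟨fun u => ?_, fun i => ?_⟩
  · have h3 := h2 (Y⁻¹ *ᵥ u)
    rw [e] at h3
    generalize Y⁻¹ *ᵥ u = w at h3
    have h4 : c ^ 2 * ∑ i, w i ^ 2 ≤ u ⬝ᵥ w := by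
      refine le_trans ?_ h3
      rw [sq, mul_assoc, Finset.mul_sum]
      exact mul_le_mul_of_nonneg_left (Finset.sum_le_sum fun i _ =>
        mul_le_mul_of_nonneg_right (h1 i) (sq_nonneg _)) hc.le
    have h5 : (u ⬝ᵥ w) ^ 2 ≤ (∑ i, u i ^ 2) * ∑ i, w i ^ 2 := Finset.sum_mul_sq_le_sq_mul_sq _ _ _
    have h6 : 0 ≤ ∑ i, u i ^ 2 := Finset.sum_nonneg fun i _ => sq_nonneg _
    rw [le_div_iff₀ (by positivity)]
    rcases le_or_gt (u ⬝ᵥ w) 0 with h7 | h7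
    · exact (mul_nonpos_of_nonpos_of_nonneg h7 (sq_nonneg c)).trans h6
    · refine le_of_mul_le_mul_left ?_ h7
      nlinarith [mul_le_mul_of_nonneg_left h4 h6, mul_le_mul_of_nonneg_left h5 (sq_nonneg c)]
  · have h3 := h2 (Y⁻¹ *ᵥ Pi.single i 1)
    rw [e, mulVec_single_one, single_dotProduct, one_mul, col_apply] at h3
    have h4 : Y i i * Y⁻¹ i i ^ 2 ≤ ∑ k, Y k k * Y⁻¹.col i k ^ 2 :=
      Finset.single_le_sum (f := fun k => Y k k * Y⁻¹.col i k ^ 2)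
        (fun k _ => mul_nonneg (hc.le.trans (h1 k)) (sq_nonneg _)) (Finset.mem_univ i)
    have h5 : 0 < Y⁻¹ i i := hY.inv.diag_pos
    refine le_of_mul_le_mul_right ?_ h5
    nlinarith [mul_le_mul_of_nonneg_left h4 hc.le]

theorem mah_trace {τ : Matrix ι ι ℂ} (hτ : InH τ) {c ε : ℝ} (hc : 0 < c) (hε : 0 < ε)
    (h0 : ∀ i j, |(τ i j).re| ≤ 1) (h1 : ∀ i, c ≤ (τ i i).im)
    (h2 : ∀ v : ι → ℝ, c * ∑ i, (τ i i).im * v i ^ 2 ≤ v ⬝ᵥ τ.map Complex.im *ᵥ v)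
    (h3 : ∀ i, ε ≤ FP.Pm τ (Sum.inr i) (Sum.inr i)) : (FP.Pm τ).trace ≤
      Fintype.card ι * (1 / (c * ε) + Fintype.card ι / c ^ 2) + Fintype.card ι * (1 / c ^ 2) := by
  obtain ⟨a1, a2⟩ := mah_inv hτ.2 hc h1 h2
  rw [FP.Pm_eq] at h3 ⊢
  simp only [fromBlocks_apply₂₂] at h3
  have hX : (τ.map Complex.re)ᵀ = τ.map Complex.re := by rw [← transpose_map, hτ.1.eq]
  have h4 : ∀ i j, (τ.map Complex.re) i j ^ 2 ≤ 1 := fun i j => (sq_le_one_iff_abs_le_one _).2 (h0 i j)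
  have h5 : ∀ i, c ≤ τ.map Complex.im i i := h1
  generalize τ.map Complex.re = X at *
  generalize τ.map Complex.im = Y at *
  rw [trace, Fintype.sum_sum_type, ← nsmul_eq_mul, ← nsmul_eq_mul, ← Finset.card_univ]
  refine add_le_add (Finset.sum_le_card_nsmul _ _ _ fun i _ => add_le_add ?_ ?_)
    (Finset.sum_le_card_nsmul _ _ _ fun i _ => ?_)
  · rw [le_div_iff₀ (by positivity)]
    nlinarith [a2 i, mul_le_mul_of_nonneg_left (h3 i) (mul_nonneg hc.le (hc.le.trans (h5 i)))]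
  · have e : (X * Y⁻¹ * X) i i = X.col i ⬝ᵥ Y⁻¹ *ᵥ X.col i := by
      rw [Matrix.mul_assoc, mul_apply]
      refine Finset.sum_congr rfl fun k _ => congrArg₂ _ ?_ rfl
      exact congrFun (congrFun hX k) i
    refine (e.trans_le (a1 _)).trans (div_le_div_of_nonneg_right ?_ (sq_nonneg c))
    simpa using Finset.sum_le_card_nsmul Finset.univ (fun k => X.col i k ^ 2) 1 fun k _ => h4 k i
  · have := a1 (Pi.single i 1)
    rw [mulVec_single_one, single_dotProduct, one_mul, col_apply] at this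
    refine this.trans_eq ?_
    simp [Pi.single_apply]

theorem mahler (ι : Type) [Fintype ι] [DecidableEq ι] {ε : ℝ} (hε : 0 < ε) : ∃ C : ℝ,
    ∀ g g' : RM ι, Sim g 1 → g * g' = 1 →
      (∀ v : ι ⊕ ι → ℤ, v ≠ 0 → ε ≤ (g' *ᵥ rz v) ⬝ᵥ (g' *ᵥ rz v)) →
      ∃ γ : symplecticGroup ι ℤ, ∀ i j, |(zr γ.1 * g) i j| ≤ C := by
  obtain ⟨c, hc, hred⟩ := siegel_red ι
  refine ⟨(1 : RM ι).trace * (Fintype.card ι * (1 / (c * ε) + Fintype.card ι / c ^ 2) +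
    Fintype.card ι * (1 / c ^ 2)) + 1, fun g g' hg e h => ?_⟩
  have h0 : InH (Complex.I • (1 : Matrix ι ι ℂ)) := by
    have e1 : (Complex.I • (1 : Matrix ι ι ℂ)).map Complex.im = 1 := by
      ext i j
      by_cases h : i = j <;> simp [h, Matrix.one_apply]
    exact ⟨isSymm_one.smul _, e1 ▸ PosDef.one⟩
  obtain ⟨γ, hγ, a1, a2, a3⟩ := hred _ (inH_act hg one_pos h0)
  have s1 : Sim (zr γ) 1 := (sim_zr_iff γ).2 hγ
  have s2 : Sim (zr γ * g) 1 := by simpa using s1.mul hg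
  have s3 : zr γ * g ∈ symplecticGroup ι ℝ := by
    rw [SymplecticGroup.mem_iff', (sim_iff _ _).1 s2, one_smul]
  have e1 : act (mz γ) (act g (Complex.I • 1)) = act (zr γ * g) (Complex.I • 1) :=
    (act_mul (den_det_ne_zero hg one_pos h0)
      (den_det_ne_zero s1 one_pos (inH_act hg one_pos h0))).symm
  rw [e1] at a1 a2 a3
  obtain ⟨δ, hδ⟩ : ∃ δ : ZM ι, γ * δ = 1 :=
    ⟨_, congrArg Subtype.val (mul_inv_cancel (⟨γ, hγ⟩ : symplecticGroup ι ℤ))⟩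
  have e2 : zr γ * g * (g' * zr δ) = 1 := by
    rw [Matrix.mul_assoc, ← Matrix.mul_assoc g, e, Matrix.one_mul, ← zr_mul, hδ, zr_one]
  have e3 : FP.Pm (act (zr γ * g) (Complex.I • 1)) = (g' * zr δ)ᵀ * (g' * zr δ) := by
    have e4 := FP.Pm_act s3 h0
    rw [FP.Pm_I] at e4
    generalize g' * zr δ = k at e2
    rw [← Matrix.mul_one kᵀ, ← e4, ← Matrix.mul_assoc kᵀ, ← Matrix.mul_assoc kᵀ,
      ← transpose_mul, e2, transpose_one, Matrix.one_mul, Matrix.mul_assoc, e2, Matrix.mul_one]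
  have a4 := mah_trace (inH_act s2 one_pos h0) hc hε a1 a2 a3 fun i => by
    have h1 := h (δ *ᵥ Pi.single (Sum.inr i) 1) fun h2 => by
      have h3 := congrArg (γ *ᵥ ·) h2
      simp only [mulVec_mulVec, hδ, one_mulVec, mulVec_zero] at h3
      simpa using congrFun h3 (Sum.inr i)
    have e5 : (rz (Pi.single (Sum.inr i) 1) : ι ⊕ ι → ℝ) = Pi.single (Sum.inr i) 1 := by
      funext j
      simp [rz, Pi.single_apply]
    rw [← zr_mulVec, mulVec_mulVec, e5, mulVec_single_one] at h1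
    rw [e3]
    exact h1
  refine ⟨⟨γ, hγ⟩, fun i j => ?_⟩
  have a5 := FP.entry_sq_le s3 h0 i j
  rw [FP.Pm_I] at a5
  have a6 : 0 ≤ (1 : RM ι).trace := by
    rw [trace_one]
    positivity
  have a7 := a5.trans (mul_le_mul_of_nonneg_left a4 a6)
  nlinarith [sq_abs ((zr γ * g) i j), sq_nonneg (|(zr γ * g) i j| - 1)]

end M8.E3
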