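import Pool.Agent.Lib.MP_33b3f9_ag.M4.ThAct2
import Pool.Agent.Lib.MP_33b3f9_ag.M4.ThSum
import Pool.Agent.Lib.MP_a47f92_an.G.Osg

/-! Vector fields on the Siegel space that come from matrices. -/

set_option autoImplicit false

noncomputable section

namespace M8.E3

open Matrix Filter Topology M4

variable {ι : Type} [Fintype ι] [DecidableEq ι]

/-- Real matrices of size `2 g`. -/
abbrev MR (ι : Type) : Type := Matrix (ι ⊕ ι) (ι ⊕ ι) ℝ

/-- Complex matrices of size `2 g`. -/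
abbrev MC (ι : Type) : Type := Matrix (ι ⊕ ι) (ι ⊕ ι) ℂ

/-- A real matrix as a complex matrix. -/
def cx (g : MR ι) : MC ι := g.map Complex.ofReal

/-- The matrix `(τ 1)`. -/
def rw' (τ : Matrix ι ι ℂ) : Matrix ι (ι ⊕ ι) ℂ := fromCols τ 1

/-- The matrix with blocks `1` and `-τ`. -/
def cl' (τ : Matrix ι ι ℂ) : Matrix (ι ⊕ ι) ι ℂ := fromRows 1 (-τ)

/-- The vector field of `X`. -/
def vf (X : MC ι) (τ : Matrix ι ι ℂ) : Matrix ι ι ℂ := -(rw' τ * X * cl' τ)

/-- The denominator of the complex action. -/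
def dc (g : MC ι) (τ : Matrix ι ι ℂ) : Matrix ι ι ℂ := g.toBlocks₁₁ - g.toBlocks₁₂ * τ

/-- The complex action. -/
def ac (g : MC ι) (τ : Matrix ι ι ℂ) : Matrix ι ι ℂ :=
  (g.toBlocks₂₂ * τ - g.toBlocks₂₁) * (dc g τ)⁻¹

theorem ac_cx (g : MR ι) (τ : Matrix ι ι ℂ) : ac (cx g) τ = act g τ := rfl

omit [DecidableEq ι] in
theorem dc_cx (g : MR ι) (τ : Matrix ι ι ℂ) : dc (cx g) τ = den g τ := rfl

omit [DecidableEq ι] in
theorem cx_mul (g h : MR ι) : cx (g * h) = cx g * cx h :=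
  Matrix.map_mul (f := Complex.ofRealHom)

omit [Fintype ι] in
theorem cx_one : cx (1 : MR ι) = 1 := Matrix.map_one _ Complex.ofReal_zero Complex.ofReal_one

theorem rw_cl (σ τ : Matrix ι ι ℂ) : rw' σ * cl' τ = σ - τ := by
  rw [rw', cl', fromCols_mul_fromRows, Matrix.mul_one, Matrix.one_mul, sub_eq_add_neg]

theorem mul_cl (g : MC ι) (τ : Matrix ι ι ℂ) :
    g * cl' τ = fromRows (dc g τ) (-(g.toBlocks₂₂ * τ - g.toBlocks₂₁)) := by
  conv_lhs => rw [← fromBlocks_toBlocks g]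
  rw [cl', fromBlocks_mul_fromRows, dc]
  congr 1 <;> simp [sub_eq_add_neg]

theorem mul_cl' {g : MC ι} {τ : Matrix ι ι ℂ} (hd : (dc g τ).det ≠ 0) :
    g * cl' τ = cl' (ac g τ) * dc g τ := by
  rw [mul_cl, cl', fromRows_mul, Matrix.one_mul, Matrix.neg_mul, ac,
    nonsing_inv_mul_cancel_right _ _ hd.isUnit]

/-- The exact difference formula. -/
theorem ac_eq {g : MC ι} {τ : Matrix ι ι ℂ} (hd : (dc g τ).det ≠ 0) (σ : Matrix ι ι ℂ) :
    ac g τ = σ - rw' σ * g * cl' τ * (dc g τ)⁻¹ := by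
  rw [Matrix.mul_assoc _ g, mul_cl' hd, ← Matrix.mul_assoc, rw_cl,
    mul_nonsing_inv_cancel_right _ _ hd.isUnit, sub_sub_cancel]

theorem rw_mul {g : MR ι} {τ τ' : Matrix ι ι ℂ} (h : Rel g τ τ') :
    rw' τ' * cx g = jf g τ' * rw' τ := by
  conv_lhs => rw [← fromBlocks_toBlocks (cx g)]
  rw [rw', fromCols_mul_fromBlocks, rw', mul_fromCols, Matrix.one_mul, Matrix.one_mul,
    Matrix.mul_one]
  exact congrArg₂ fromCols h rfl

omit [DecidableEq ι] in
theorem continuous_dc : Continuous fun p : MC ι × Matrix ι ι ℂ => dc p.1 p.2 := by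
  have h1 : Continuous fun p : MC ι × Matrix ι ι ℂ => p.1.toBlocks₁₁ :=
    continuous_matrix fun i j => continuous_fst.matrix_elem _ _
  have h2 : Continuous fun p : MC ι × Matrix ι ι ℂ => p.1.toBlocks₁₂ :=
    continuous_matrix fun i j => continuous_fst.matrix_elem _ _
  exact h1.sub (h2.matrix_mul continuous_snd)

theorem tendsto_inv {α : Type} {l : Filter α} {A : α → Matrix ι ι ℂ} {B : Matrix ι ι ℂ}
    (h : Tendsto A l (𝓝 B)) (hB : B.det ≠ 0) :
    Tendsto (fun n => (A n)⁻¹) l (𝓝 B⁻¹) ∧ ∀ᶠ n in l, (A n).det ≠ 0 := by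
  refine ⟨ContinuousAt.tendsto (f := Inv.inv) ?_ |>.comp h,
    ((continuous_id.matrix_det.tendsto B).comp h).eventually_ne hB⟩
  obtain ⟨u, hu⟩ := hB.isUnit
  exact continuousAt_matrix_inv B (hu ▸ NormedRing.inverse_continuousAt u)

omit [Fintype ι] in
theorem continuous_cl : Continuous (cl' : Matrix ι ι ℂ → _) := by
  refine continuous_matrix fun i j => ?_
  rcases i with i | i
  · exact continuous_const
  · exact (continuous_id.matrix_elem i j).neg

theorem dc_one (τ : Matrix ι ι ℂ) : dc 1 τ = 1 := by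
  rw [dc, ← fromBlocks_one, toBlocks_fromBlocks₁₁, toBlocks_fromBlocks₁₂, Matrix.zero_mul, sub_zero]

theorem vf_add (X Y : MC ι) (τ : Matrix ι ι ℂ) : vf (X + Y) τ = vf X τ + vf Y τ := by
  rw [vf, vf, vf, Matrix.mul_add, Matrix.add_mul, neg_add]

theorem vf_smul (c : ℂ) (X : MC ι) (τ : Matrix ι ι ℂ) : vf (c • X) τ = c • vf X τ := by
  rw [vf, vf, Matrix.mul_smul, Matrix.smul_mul, smul_neg]

theorem vf_zero (τ : Matrix ι ι ℂ) : vf 0 τ = 0 := by
  rw [vf, Matrix.mul_zero, Matrix.zero_mul, neg_zero]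

theorem analyticAt_vf (X : MC ι) (τ : ι → ι → ℂ) :
    AnalyticAt ℂ (fun (σ : ι → ι → ℂ) i j => vf X (Matrix.of σ) i j) τ := by
  refine Pool.Agent.Lib.MP_a47f92_an.Osg.analyticOnNhd_of_differentiableOn isOpen_univ
    (Differentiable.differentiableOn (differentiable_pi.2 fun i => differentiable_pi.2 fun j => ?_))
    _ trivial
  simp only [vf, rw', cl', Matrix.neg_apply, Matrix.mul_apply, Fintype.sum_sum_type,
    fromCols_apply_inl, fromCols_apply_inr, fromRows_apply_inl, fromRows_apply_inr, of_apply]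
  fun_prop

theorem analyticAt_act {g : MR ι} {τ : Matrix ι ι ℂ} (hd : (den g τ).det ≠ 0) :
    AnalyticAt ℂ (fun (σ : ι → ι → ℂ) i j => act g (Matrix.of σ) i j) τ := by
  refine Pool.Agent.Lib.MP_a47f92_an.Osg.analyticOnNhd_of_differentiableOn ?_
    (differentiableOn_act g) _ hd
  exact isOpen_ne_fun (continuous_dc.comp (Continuous.prodMk_right (cx g))).matrix_det
    continuous_const

omit [DecidableEq ι] in
/-- A limit of difference quotients. -/
theorem fd_lim {F : (ι → ι → ℂ) → ℂ} {z v : Matrix ι ι ℂ} (hF : AnalyticAt ℂ F z) {α : Type}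
    {l : Filter α} {t : α → ℂ} {w : α → Matrix ι ι ℂ} (ht : Tendsto t l (𝓝 0))
    (ht0 : ∀ᶠ n in l, t n ≠ 0) (hw : Tendsto w l (𝓝 v)) :
    Tendsto (fun n => (t n)⁻¹ * (F (z + t n • w n) - F z)) l (𝓝 (fderiv ℂ F z v)) := by
  have h1 : Tendsto (fun n => t n • w n) l (𝓝 0) := by simpa using ht.smul hw
  exact (hasFDerivWithinAt_univ.2 hF.differentiableAt.hasFDerivAt).lim
    (c := fun n => (t n)⁻¹) (d := fun n => t n • w n) h1 (.of_forall fun _ => trivial)
    (hw.congr' (ht0.mono fun n hn => (inv_smul_smul₀ hn _).symm))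

/-- The differential of the action. -/
theorem fd_act {g : MR ι} {τ : Matrix ι ι ℂ} (hd : (den g τ).det ≠ 0) {F : (ι → ι → ℂ) → ℂ}
    (hF : AnalyticAt ℂ F (act g τ)) (ξ : Matrix ι ι ℂ) :
    fderiv ℂ (fun σ : ι → ι → ℂ => F (act g (Matrix.of σ))) τ ξ =
      fderiv ℂ F (act g τ) (jf g (act g τ) * ξ * (den g τ)⁻¹) := by
  have hr : Rel g τ (act g τ) := (rel_iff_eq_act hd).2 rfl
  have ht : Tendsto (fun s : ℂ => s) (𝓝[≠] 0) (𝓝 0) := tendsto_nhdsWithin_of_tendsto_nhds tendsto_id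
  have ht0 : ∀ᶠ s : ℂ in 𝓝[≠] 0, s ≠ 0 := self_mem_nhdsWithin
  have h1 : Tendsto (fun s : ℂ => τ + s • ξ) (𝓝[≠] 0) (𝓝 τ) := by
    simpa using (ht.smul_const ξ).const_add τ
  obtain ⟨h2, h3⟩ := tendsto_inv ((continuous_dc.tendsto (cx g, τ)).comp
    (tendsto_const_nhds.prodMk_nhds h1)) hd
  have h4 := fd_lim (v := ξ) (hF.comp_of_eq (analyticAt_act hd) rfl) ht ht0 tendsto_const_nhds
  have h5 := fd_lim hF ht ht0 (((continuous_const (y := jf g (act g τ) * ξ)).matrix_mul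
    continuous_id).continuousAt.tendsto.comp h2)
  refine tendsto_nhds_unique h4 (h5.congr' (h3.mono fun s hs => ?_))
  have e : act g (τ + s • ξ) = act g τ + s • (jf g (act g τ) * ξ * (dc (cx g) (τ + s • ξ))⁻¹) := by
    rw [← ac_cx, ac_eq hs (act g τ), rw_mul hr, Matrix.mul_assoc (jf _ _), rw_cl, sub_add_cancel_left,
      Matrix.mul_neg, Matrix.neg_mul, sub_neg_eq_add, Matrix.mul_smul, Matrix.smul_mul]
  exact congrArg (fun x => s⁻¹ * (F x - F (act g τ))) e.symm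

theorem vf_conj {g g' : MR ι} (e : g' * g = 1) {τ : Matrix ι ι ℂ} (hd : (den g τ).det ≠ 0)
    (X : MC ι) : vf (cx g * X * cx g') (act g τ) = jf g (act g τ) * vf X τ * (den g τ)⁻¹ := by
  have hr : Rel g τ (act g τ) := (rel_iff_eq_act hd).2 rfl
  have h1 : cx g' * cl' (act g τ) = cl' τ * (den g τ)⁻¹ := by
    have h2 := mul_cl' (g := cx g) hd
    rw [ac_cx, dc_cx] at h2
    rw [← mul_nonsing_inv_cancel_right _ (cl' (act g τ)) hd.isUnit, ← h2, ← Matrix.mul_assoc,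
      ← Matrix.mul_assoc, ← cx_mul, e, cx_one, Matrix.one_mul]
  rw [vf, vf, ← Matrix.mul_assoc, ← Matrix.mul_assoc, rw_mul hr, Matrix.mul_assoc _ (cx g'), h1]
  simp only [Matrix.mul_neg, Matrix.neg_mul, Matrix.mul_assoc]

end M8.E3
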